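import Pool.Agent.Lib.MP_c5e17c_al.OA.QRep

/-!
# MP_c5e17c_al, project OA: a nontrivial subquasivariety of `KK` is determined by the
implications `P_s → P_t` that it satisfies
-/

set_option autoImplicit false

namespace C5E17

namespace QMain

variable {S F : Type}

/-- normal forms of atomic formulas -/
inductive NF (S F : Type) : Type
  | e (w : List (Sym F)) (i : ℕ) (w' : List (Sym F)) (j : ℕ) : NF S F
  | p (s : S) (w : List (Sym F)) (i : ℕ) : NF S F

/-- truth of a normal form -/
def NF.H (A : Str (LK S F)) (v : ℕ → A.carrier) : NF S F → Prop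
  | .e w i w' j => apW A w (v i) = apW A w' (v j)
  | .p s w i => pr A s (apW A w (v i))

/-- a bound for the indices of the variables -/
def NF.bd : NF S F → ℕ
  | .e _ i _ j => i + j + 1
  | .p _ _ i => i + 1

theorem exists_nf (a : Atom (LK S F)) :
    ∃ f : NF S F, ∀ (A : Str (LK S F)) (v : ℕ → A.carrier), a.Holds A v ↔ f.H A v := by
  rcases atom_cases a with ⟨w, i, w', j, h⟩ | ⟨s, w, i, h⟩
  · exact ⟨.e w i w' j, h⟩
  · exact ⟨.p s w i, h⟩

theorem exists_bd {α : Type} (b : α → ℕ) (l : List α) : ∃ n, ∀ a ∈ l, b a ≤ n := by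
  induction l with
  | nil => exact ⟨0, by simp⟩
  | cons a l ih =>
    obtain ⟨n, hn⟩ := ih
    refine ⟨max (b a) n, fun c hc => ?_⟩
    rcases List.mem_cons.mp hc with rfl | hc
    · exact le_max_left _ _
    · exact (hn c hc).trans (le_max_right _ _)

theorem exists_sup {α : Type} [SemilatticeSup S] {act : F → S → S} {A : Str (LK S F)}
    (hA : KAx act A) (x : A.carrier) (D : α → S → Prop)
    (huniq : ∀ a s s', D a s → D a s' → s = s') (l : List α)
    (hpr : ∀ a ∈ l, ∀ s, D a s → pr A s x) :
    (∀ a ∈ l, ∀ s, ¬ D a s) ∨ ∃ s, (∀ a ∈ l, ∀ s', D a s' → s' ≤ s) ∧ pr A s x := by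
  induction l with
  | nil => left; simp
  | cons a l ih =>
    have ih' := ih (fun b hb => hpr b (List.mem_cons_of_mem _ hb))
    by_cases hD : ∃ s, D a s
    · obtain ⟨s₁, hs₁⟩ := hD
      have hp₁ := hpr a List.mem_cons_self s₁ hs₁
      right
      rcases ih' with hno | ⟨s₂, hs₂, hp₂⟩
      · refine ⟨s₁, fun b hb s' hs' => ?_, hp₁⟩
        rcases List.mem_cons.mp hb with rfl | hb
        · exact (huniq _ _ _ hs' hs₁).le
        · exact absurd hs' (hno b hb s')
      · refine ⟨s₁ ⊔ s₂, fun b hb s' hs' => ?_, hA.sup _ _ _ hp₁ hp₂⟩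
        rcases List.mem_cons.mp hb with rfl | hb
        · exact (huniq _ _ _ hs' hs₁).le.trans le_sup_left
        · exact (hs₂ b hb s' hs').trans le_sup_right
    · rcases ih' with hno | ⟨s₂, hs₂, hp₂⟩
      · left
        intro b hb s hs
        rcases List.mem_cons.mp hb with rfl | hb
        · exact hD ⟨s, hs⟩
        · exact hno b hb s hs
      · right
        refine ⟨s₂, fun b hb s' hs' => ?_, hp₂⟩
        rcases List.mem_cons.mp hb with rfl | hb
        · exact absurd ⟨s', hs'⟩ hD
        · exact hs₂ b hb s' hs'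

end QMain

open QMain in
theorem mem_of_theta {S F : Type} [SemilatticeSup S] {act : F → S → S}
    (hact : ∀ f s t, act f (s ⊔ t) = act f s ⊔ act f t)
    {C : Set (Str (LK S F))} (hC : IsQV C) (hCK : C ⊆ KK act)
    (hne : ∃ B ∈ C, ¬ Subsingleton B.carrier) {A : Str (LK S F)} (hA : KAx act A)
    (h : ∀ s t : S, (∀ B ∈ C, ∀ x, pr B s x → pr B t x) → ∀ x, pr A s x → pr A t x) :
    A ∈ C := by
  classical
  obtain ⟨Qs, rfl⟩ := hC
  intro φ hφ v hv
  by_cases hn : Subsingleton A.carrier
  · exact atom_holds_of_subsingleton hA hn _ _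
  choose nf hnf using (exists_nf (S := S) (F := F))
  obtain ⟨n, hbd⟩ := exists_bd (fun a => (nf a).bd) (φ.concl :: φ.prem)
  obtain ⟨w, m, hw, hind⟩ := exists_rep hA hn n v
  -- the transfer
  have key : ∀ B ∈ Mod Qs, ¬ Subsingleton B.carrier → ∀ g : A.carrier → B.carrier,
      (∀ a ∈ φ.prem, ∀ s u i, nf a = NF.p s u i → ∀ s', ev act (u ++ w i) s = Ev.st s' →
        pr B s' (g (m i))) →
      (nf φ.concl).H B (fun i => apW B (w i) (g (m i))) := by
    intro B hB hBn g hg
    have hBK : KAx act B := (mem_KK_iff act B).mp (hCK hB)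
    rw [← hnf]
    refine hB φ hφ _ fun a ha => ?_
    rw [hnf]
    have h1 := (hnf a A v).mp (hv a ha)
    have h2 := hbd a (List.mem_cons_of_mem _ ha)
    have h3 := hg a ha
    revert h1 h2 h3
    cases nf a with
    | e u i u' j =>
      intro h1 h2 _
      simp only [NF.H, NF.bd] at h1 h2 ⊢
      rw [hw i (by omega), hw j (by omega), ← apW_append, ← apW_append] at h1
      obtain ⟨hm, hu⟩ := hind i (by omega) j (by omega) _ _ h1
      rw [← apW_append, ← apW_append, hu, hm]
    | p s u i =>
      intro h1 h2 h3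
      simp only [NF.H, NF.bd] at h1 h2 ⊢
      rw [hw i (by omega), ← apW_append, pr_apW hA hn] at h1
      rw [← apW_append, pr_apW hBK hBn]
      have h4 := h3 s u i rfl
      revert h1 h4
      cases ev act (u ++ w i) s with
      | st s' => intro _ h4; exact h4 s' rfl
      | tt => intro _ _; trivial
      | ff => intro h1 _; exact h1
  obtain ⟨B₀, hB₀, hB₀n⟩ := hne
  have hB₀K : KAx act B₀ := (mem_KK_iff act B₀).mp (hCK hB₀)
  obtain ⟨b₀⟩ := B₀.ne
  rw [hnf]
  have hbc := hbd φ.concl List.mem_cons_self
  have key' := key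
  revert hbc key'
  cases nf φ.concl with
  | e u i u' j =>
    intro hbc key'
    simp only [NF.H, NF.bd] at hbc ⊢
    have hm : m i = m j := by
      by_contra hne
      have h1 := key' B₀ hB₀ hB₀n
        (fun y => if y = m i then ap B₀ .o b₀ else ap B₀ .o (ap B₀ .k b₀)) (by
          intro a _ s u i' _ s' _
          split_ifs
          · exact hB₀K.o _ _
          · exact hB₀K.o _ _)
      simp only [NF.H] at h1
      rw [if_pos trivial, if_neg (fun hh => hne hh.symm)] at h1
      have e1 : ap B₀ .o b₀ = apW B₀ [.o] b₀ := rfl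
      have e2 : ap B₀ .o (ap B₀ .k b₀) = apW B₀ [.o, .k] b₀ := rfl
      rw [e1, e2, ← apW_append, ← apW_append, ← apW_append, ← apW_append] at h1
      have h2 := apW_word_eq hB₀K hB₀n h1
      have h3 := congrArg List.getLast? h2
      simp at h3
    have h1 := key' B₀ hB₀ hB₀n (fun _ => ap B₀ .o b₀) (by
      intro a _ s u i' _ s' _
      exact hB₀K.o _ _)
    simp only [NF.H] at h1
    have e1 : ap B₀ .o b₀ = apW B₀ [.o] b₀ := rfl
    rw [e1, ← apW_append, ← apW_append, ← apW_append, ← apW_append] at h1
    have h2 := apW_word_eq hB₀K hB₀n h1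
    have h3 := List.append_cancel_right h2
    rw [hw i (by omega), hw j (by omega), ← apW_append, ← apW_append, hm, h3]
  | p t u i =>
    intro hbc key'
    simp only [NF.H, NF.bd] at hbc ⊢
    rw [hw i (by omega), ← apW_append, pr_apW hA hn]
    cases hev : ev act (u ++ w i) t with
    | tt => trivial
    | ff =>
      have h1 := key' B₀ hB₀ hB₀n (fun _ => ap B₀ .o b₀) (by
        intro a _ s u i' _ s' _
        exact hB₀K.o _ _)
      simp only [NF.H] at h1
      rw [← apW_append, pr_apW hB₀K hB₀n, hev] at h1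
      exact h1.elim
    | st t' =>
      change pr A t' (m i)
      rcases exists_sup hA (m i)
        (fun a s' => ∃ s u' j, nf a = NF.p s u' j ∧ m j = m i ∧ ev act (u' ++ w j) s = Ev.st s')
        (by
          rintro a s₁ s₂ ⟨s, u₁, j, h1, _, h2⟩ ⟨s', u₂, j', h1', _, h2'⟩
          rw [h1] at h1'
          injection h1' with e1 e2 e3
          subst e1; subst e2; subst e3
          rw [h2] at h2'
          injection h2')
        φ.prem
        (by
          rintro a ha s' ⟨s, u', j, h1, hmj, h2⟩
          have h3 := (hnf a A v).mp (hv a ha)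
          have h4 := hbd a (List.mem_cons_of_mem _ ha)
          simp only [h1, NF.H, NF.bd] at h3 h4
          rw [hw j (by omega), ← apW_append, pr_apW hA hn, h2] at h3
          rw [← hmj]
          exact h3) with hno | ⟨s₀, hs₀, hp₀⟩
      · exfalso
        have h1 := key' B₀ hB₀ hB₀n
          (fun y => if y = m i then ap B₀ .k b₀ else ap B₀ .o b₀) (by
            intro a ha s u' j hj s' hs'
            by_cases hmj : m j = m i
            · exact absurd ⟨s, u', j, hj, hmj, hs'⟩ (hno a ha s')
            · rw [if_neg hmj]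
              exact hB₀K.o _ _)
        simp only [NF.H] at h1
        rw [if_pos trivial, ← apW_append, pr_apW hB₀K hB₀n, hev] at h1
        exact hB₀n (hB₀K.k _ _ h1)
      · refine h s₀ t' ?_ (m i) hp₀
        intro B hB y hy
        have hBK : KAx act B := (mem_KK_iff act B).mp (hCK hB)
        by_cases hBn : Subsingleton B.carrier
        · have h1 := hBK.o t' y
          rwa [Subsingleton.elim (ap B .o y) y] at h1
        · have h1 := key' B hB hBn (fun z => if z = m i then y else ap B .o y) (by
            intro a ha s u' j hj s' hs'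
            by_cases hmj : m j = m i
            · rw [if_pos hmj]
              exact hBK.mono _ _ (hs₀ a ha s' ⟨s, u', j, hj, hmj, hs'⟩) _ hy
            · rw [if_neg hmj]
              exact hBK.o _ _)
          simp only [NF.H] at h1
          rw [if_pos trivial, ← apW_append, pr_apW hBK hBn, hev] at h1
          exact h1

end C5E17
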