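import Pool.Agent.Lib.MP_c5e17c_al.OA.QModel
import Pool.Agent.Lib.MP_c5e17c_al.OA.QMain

/-!
# MP_c5e17c_al, project OA: the lattice of subquasivarieties of `KK`
-/

set_option autoImplicit false

namespace C5E17

namespace QIso

variable {S F : Type}

/-- the quasi-identity `P_s(x) → P_t(x)` -/
def qi (s t : S) : QId (LK S F) := ⟨[atP s (vr 0)], atP t (vr 0)⟩

theorem holds_qi (A : Str (LK S F)) (s t : S) :
    (qi s t : QId (LK S F)).Holds A ↔ ∀ x, pr A s x → pr A t x := by
  constructor
  · intro h x hx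
    refine h (fun _ => x) ?_
    intro a ha
    simp only [qi, List.mem_singleton] at ha
    subst ha
    exact hx
  · intro h v hv
    exact h (v 0) (hv (atP s (vr 0)) (by simp [qi]))

/-- the relation of a class -/
def th (C : Set (Str (LK S F))) (s t : S) : Prop :=
  ∀ B ∈ C, ∀ x : B.carrier, pr B s x → pr B t x

theorem th_closed [SemilatticeSup S] {act : F → S → S} {C : Set (Str (LK S F))}
    (hC : C ⊆ KK act) : Closed act (th C) where
  refl s t h B hB x hx := ((mem_KK_iff act B).1 (hC hB)).mono s t h x hx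
  trans r s t h1 h2 B hB x hx := h2 B hB x (h1 B hB x hx)
  sup s t t' h1 h2 B hB x hx :=
    ((mem_KK_iff act B).1 (hC hB)).sup t t' x (h1 B hB x hx) (h2 B hB x hx)
  op f s t h B hB x hx := by
    have hK := (mem_KK_iff act B).1 (hC hB)
    exact (hK.op f t x).1 (h B hB _ ((hK.op f s x).2 hx))

/-- the class of a relation -/
def cls [SemilatticeSup S] (act : F → S → S) (Θ : S → S → Prop) : Set (Str (LK S F)) :=
  {A | KAx act A ∧ ∀ s t, Θ s t → ∀ x, pr A s x → pr A t x}

theorem cls_isQV [SemilatticeSup S] (act : F → S → S) (Θ : S → S → Prop) :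
    IsQV (cls act Θ) := by
  refine ⟨{φ | AxK act φ} ∪ {φ | ∃ s t, Θ s t ∧ φ = qi s t}, ?_⟩
  ext A
  constructor
  · rintro ⟨h1, h2⟩ φ (hφ | ⟨s, t, hst, rfl⟩)
    · exact (mem_KK_iff act A).2 h1 φ hφ
    · exact (holds_qi A s t).2 (h2 s t hst)
  · intro h
    refine ⟨(mem_KK_iff act A).1 fun φ hφ => h φ (Or.inl hφ), fun s t hst => ?_⟩
    exact (holds_qi A s t).1 (h _ (Or.inr ⟨s, t, hst, rfl⟩))

theorem cls_sub [SemilatticeSup S] (act : F → S → S) (Θ : S → S → Prop) :
    cls act Θ ⊆ KK act := fun A hA => (mem_KK_iff act A).2 hA.1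

/-- the class of the one-element members of `KK` -/
def triv [SemilatticeSup S] (act : F → S → S) : Set (Str (LK S F)) :=
  {A | KAx act A ∧ Subsingleton A.carrier}

theorem triv_isQV [SemilatticeSup S] (act : F → S → S) : IsQV (triv act) := by
  refine ⟨{φ | AxK act φ} ∪ {⟨[], Atom.eq (vr 0) (vr 1)⟩}, ?_⟩
  ext A
  constructor
  · rintro ⟨h1, h2⟩ φ (hφ | hφ)
    · exact (mem_KK_iff act A).2 h1 φ hφ
    · rw [Set.mem_singleton_iff] at hφ
      subst hφ
      intro v _
      exact Subsingleton.elim _ _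
  · intro h
    refine ⟨(mem_KK_iff act A).1 fun φ hφ => h φ (Or.inl hφ), ⟨fun x y => ?_⟩⟩
    have := h _ (Or.inr rfl) (fun i => if i = 0 then x else y) (by simp)
    exact this

theorem triv_sub [SemilatticeSup S] (act : F → S → S) :
    triv act ⊆ KK act := fun A hA => (mem_KK_iff act A).2 hA.1

/-- the class of the one-element members of `KK` is contained in every quasivariety -/
theorem triv_le [SemilatticeSup S] {act : F → S → S} {C : Set (Str (LK S F))} (hC : IsQV C) :
    triv act ⊆ C := by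
  obtain ⟨Q, rfl⟩ := hC
  intro A hA φ _ v _
  exact atom_holds_of_subsingleton hA.1 hA.2 _ _

theorem th_cls [SemilatticeSup S] {act : F → S → S}
    (hact : ∀ f s t, act f (s ⊔ t) = act f s ⊔ act f t)
    {Θ : S → S → Prop} (hΘ : Closed act Θ) {s t : S} (h : th (cls act Θ) s t) : Θ s t := by
  obtain ⟨A, x, hA, -, hA2, hx⟩ := exists_model hact hΘ s
  exact (hx t).1 (h A ⟨hA, hA2⟩ x ((hx s).2 (hΘ.refl s s le_rfl)))

theorem cls_nontriv [SemilatticeSup S] [Nonempty S] {act : F → S → S}
    (hact : ∀ f s t, act f (s ⊔ t) = act f s ⊔ act f t)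
    {Θ : S → S → Prop} (hΘ : Closed act Θ) : ∃ B ∈ cls act Θ, ¬ Subsingleton B.carrier := by
  obtain ⟨A, x, hA, hn, hA2, hx⟩ := exists_model hact hΘ (Classical.arbitrary S)
  exact ⟨A, ⟨hA, hA2⟩, hn⟩


/-- the map from closed relations (with a new least element) to subquasivarieties -/
def G [SemilatticeSup S] (act : F → S → S) :
    WithBot ({Θ : S → S → Prop // Closed act Θ}ᵒᵈ) → SubQ (KK act)
  | none => ⟨triv act, triv_isQV act, triv_sub act⟩
  | some Θ => ⟨cls act (OrderDual.ofDual Θ).1, cls_isQV act _, cls_sub act _⟩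

theorem G_le_iff [SemilatticeSup S] [Nonempty S] {act : F → S → S}
    (hact : ∀ f s t, act f (s ⊔ t) = act f s ⊔ act f t)
    (a b : WithBot ({Θ : S → S → Prop // Closed act Θ}ᵒᵈ)) :
    G act a ≤ G act b ↔ a ≤ b := by
  induction a using WithBot.recBotCoe with
  | bot =>
    simp only [bot_le, iff_true]
    exact triv_le (G act b).2.1
  | coe Θ =>
    induction b using WithBot.recBotCoe with
    | bot =>
      constructor
      · intro h
        exfalso
        obtain ⟨B, hB, hn⟩ := cls_nontriv hact (OrderDual.ofDual Θ).2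
        exact hn (h hB).2
      · intro h
        exact absurd h (WithBot.not_coe_le_bot Θ)
    | coe Θ' =>
      rw [WithBot.coe_le_coe]
      constructor
      · intro h
        show (OrderDual.ofDual Θ').1 ≤ (OrderDual.ofDual Θ).1
        intro s t hst
        refine th_cls hact (OrderDual.ofDual Θ).2 ?_
        intro B hB x hx
        exact (h hB).2 s t hst x hx
      · intro h A hA
        refine ⟨hA.1, fun s t hst => hA.2 s t ?_⟩
        have h' : (OrderDual.ofDual Θ').1 ≤ (OrderDual.ofDual Θ).1 := h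
        exact h' s t hst

theorem G_surj [SemilatticeSup S] [Nonempty S] {act : F → S → S}
    (hact : ∀ f s t, act f (s ⊔ t) = act f s ⊔ act f t) :
    Function.Surjective (G act) := by
  intro C
  by_cases hne : ∃ B ∈ C.1, ¬ Subsingleton B.carrier
  · refine ⟨((OrderDual.toDual ⟨th C.1, th_closed C.2.2⟩ :
      {Θ : S → S → Prop // Closed act Θ}ᵒᵈ) : WithBot _), ?_⟩
    apply Subtype.ext
    show cls act (th C.1) = C.1
    apply Set.Subset.antisymm
    · intro A hA
      exact mem_of_theta hact C.2.1 C.2.2 hne hA.1 (fun s t h => hA.2 s t h)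
    · intro A hA
      exact ⟨(mem_KK_iff act A).1 (C.2.2 hA), fun s t h => h A hA⟩
  · refine ⟨⊥, ?_⟩
    apply Subtype.ext
    show triv act = C.1
    apply Set.Subset.antisymm
    · exact triv_le C.2.1
    · intro A hA
      refine ⟨(mem_KK_iff act A).1 (C.2.2 hA), ?_⟩
      by_contra hn
      exact hne ⟨A, hA, hn⟩

end QIso

theorem isQV_KK {S F : Type} [SemilatticeSup S] (act : F → S → S) : IsQV (KK act) :=
  ⟨{φ | AxK act φ}, rfl⟩

theorem subQ_iso {S F : Type} [SemilatticeSup S] [Nonempty S] {act : F → S → S}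
    (hact : ∀ f s t, act f (s ⊔ t) = act f s ⊔ act f t) :
    Nonempty (SubQ (KK act) ≃o WithBot ({Θ : S → S → Prop // Closed act Θ}ᵒᵈ)) :=
  ⟨(RelIso.ofSurjective (OrderEmbedding.ofMapLEIff (QIso.G act) (QIso.G_le_iff hact))
    (QIso.G_surj hact)).symm⟩

end C5E17
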