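import Pool.Agent.Lib.MP_c5e17c_al.OA.Canon

/-!
# MP_c5e17c_al, project OA: lattices of quasivarieties are join-semidistributive
-/

set_option autoImplicit false

namespace C5E17

/-- the theory of a class -/
def ThQ {L : FirstOrder.Language.{0, 0}} (B : Set (Str L)) : Set (QId L) :=
  {φ | ∀ M ∈ B, φ.Holds M}

namespace SDN

variable {L : FirstOrder.Language.{0, 0}}

/-- chains of consequences of `α`, each step in the theory of `B` or of `C` -/
inductive Ch (B C : Set (Str L)) (α : List (Atom L)) : List (Atom L) → Prop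
  | nil : Ch B C α []
  | cons (a : Atom L) (Γ : List (Atom L)) (h : Ch B C α Γ)
      (h' : QId.mk (α ++ Γ) a ∈ ThQ B ∨ QId.mk (α ++ Γ) a ∈ ThQ C) : Ch B C α (a :: Γ)

theorem weak {B : Set (Str L)} {P P' : List (Atom L)} {a : Atom L}
    (h : QId.mk P a ∈ ThQ B) (hP : ∀ b ∈ P, b ∈ P') : QId.mk P' a ∈ ThQ B :=
  fun M hM v hv => h M hM v fun b hb => hv b (hP b hb)

theorem Ch.append {B C : Set (Str L)} {α Γ Δ : List (Atom L)} (h : Ch B C α Γ)
    (h' : Ch B C α Δ) : Ch B C α (Γ ++ Δ) := by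
  induction h with
  | nil => exact h'
  | cons a Γ _ hs ih =>
    have hsub : ∀ b ∈ α ++ Γ, b ∈ α ++ (Γ ++ Δ) := by
      intro b hb
      simp only [List.mem_append] at hb ⊢
      tauto
    exact Ch.cons a (Γ ++ Δ) ih (hs.imp (fun h => weak h hsub) (fun h => weak h hsub))

/-- the set of consequences -/
def Y (B C : Set (Str L)) (α : List (Atom L)) : Set (Atom L) :=
  {a | ∃ Γ, Ch B C α Γ ∧ a ∈ α ++ Γ}

theorem fin {B C : Set (Str L)} {α : List (Atom L)} (P : List (Atom L))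
    (hP : ∀ b ∈ P, b ∈ Y B C α) : ∃ Γ, Ch B C α Γ ∧ ∀ b ∈ P, b ∈ α ++ Γ := by
  induction P with
  | nil => exact ⟨[], Ch.nil, by simp⟩
  | cons p P ih =>
    obtain ⟨Γ, h1, h2⟩ := ih fun b hb => hP b (List.mem_cons_of_mem _ hb)
    obtain ⟨Δ, h3, h4⟩ := hP p List.mem_cons_self
    refine ⟨Δ ++ Γ, h3.append h1, fun b hb => ?_⟩
    rcases List.mem_cons.1 hb with rfl | hb
    · simp only [List.mem_append] at h4 ⊢
      tauto
    · have := h2 b hb
      simp only [List.mem_append] at this ⊢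
      tauto

theorem closedB (B C : Set (Str L)) (α : List (Atom L)) : ConsClosed B (Y B C α) := by
  intro P a hP ha
  obtain ⟨Γ, h1, h2⟩ := fin P hP
  exact ⟨a :: Γ, Ch.cons a Γ h1 (Or.inl (weak (fun M hM => ha M hM) h2)), by simp⟩

theorem closedC (B C : Set (Str L)) (α : List (Atom L)) : ConsClosed C (Y B C α) := by
  intro P a hP ha
  obtain ⟨Γ, h1, h2⟩ := fin P hP
  exact ⟨a :: Γ, Ch.cons a Γ h1 (Or.inr (weak (fun M hM => ha M hM) h2)), by simp⟩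

theorem cut {B : Set (Str L)} {α Γ : List (Atom L)} {a β : Atom L}
    (h : QId.mk (α ++ Γ) a ∈ ThQ B) (h' : QId.mk (α ++ (a :: Γ)) β ∈ ThQ B) :
    QId.mk (α ++ Γ) β ∈ ThQ B := by
  intro M hM v hv
  refine h' M hM v fun b hb => ?_
  have hb' : b ∈ α ++ (a :: Γ) := hb
  simp only [List.mem_append, List.mem_cons] at hb'
  rcases hb' with hb' | rfl | hb'
  · exact hv b (by simp [hb'])
  · exact h M hM v hv
  · exact hv b (by simp [hb'])

end SDN

/-- the chain argument -/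
theorem sd_theories {L : FirstOrder.Language.{0, 0}} {A B C : Set (Str L)} (hB : IsQV B)
    (hC : IsQV C) (h : ThQ A ∩ ThQ B = ThQ A ∩ ThQ C) {φ : QId L} (hA : φ ∈ ThQ A)
    (hBC : φ ∈ ThQ (B ∩ C)) : φ ∈ ThQ B := by
  obtain ⟨α, β⟩ := φ
  obtain ⟨M, hMB, hMC, v, hv⟩ := exists_canonical hB hC (SDN.Y B C α) (SDN.closedB B C α)
    (SDN.closedC B C α)
  have hβ : β ∈ SDN.Y B C α := by
    rw [← hv β]
    refine hBC M ⟨hMB, hMC⟩ v fun a ha => ?_
    rw [hv a]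
    exact ⟨[], SDN.Ch.nil, by simpa using ha⟩
  obtain ⟨Γ, hΓ, hβΓ⟩ := hβ
  have key : ∀ Γ, SDN.Ch B C α Γ → QId.mk (α ++ Γ) β ∈ ThQ B → QId.mk (α ++ Γ) β ∈ ThQ C →
      QId.mk α β ∈ ThQ B := by
    intro Γ hΓ
    induction hΓ with
    | nil => intro h1 _; rwa [List.append_nil] at h1
    | cons a Γ _ hs ih =>
      intro h1 h2
      have hA' : QId.mk (α ++ Γ) β ∈ ThQ A := SDN.weak hA (fun b hb => by simp [hb])
      rcases hs with hs | hs
      · have h3 := SDN.cut hs h1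
        have h4 : QId.mk (α ++ Γ) β ∈ ThQ A ∩ ThQ C := h ▸ ⟨hA', h3⟩
        exact ih h3 h4.2
      · have h3 := SDN.cut hs h2
        have h4 : QId.mk (α ++ Γ) β ∈ ThQ A ∩ ThQ B := h ▸ ⟨hA', h3⟩
        exact ih h4.2 h3
  exact key Γ hΓ (fun M _ v hv => hv β hβΓ) (fun M _ v hv => hv β hβΓ)

namespace SDN

variable {L : FirstOrder.Language.{0, 0}}

theorem mod_anti {Q Q' : Set (QId L)} (h : Q ⊆ Q') : Mod Q' ⊆ Mod Q :=
  fun _ hA φ hφ => hA φ (h hφ)

theorem sub_mod_th (X : Set (Str L)) : X ⊆ Mod (ThQ X) := fun M hM _ hφ => hφ M hM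

theorem sub_th_mod (Q : Set (QId L)) : Q ⊆ ThQ (Mod Q) := fun φ hφ _ hM => hM φ hφ

theorem th_anti {X Y : Set (Str L)} (h : X ⊆ Y) : ThQ Y ⊆ ThQ X :=
  fun _ hφ M hM => hφ M (h hM)

theorem isQV_th {X : Set (Str L)} (h : IsQV X) : Mod (ThQ X) ⊆ X := by
  obtain ⟨Q, rfl⟩ := h
  exact mod_anti (sub_th_mod Q)

theorem th_inter (X Y : Set (Str L)) : ThQ (Mod (ThQ X ∩ ThQ Y)) = ThQ X ∩ ThQ Y := by
  apply Set.Subset.antisymm
  · refine Set.subset_inter (th_anti ?_) (th_anti ?_)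
    · exact (sub_mod_th X).trans (mod_anti Set.inter_subset_left)
    · exact (sub_mod_th Y).trans (mod_anti Set.inter_subset_right)
  · exact sub_th_mod _

theorem isQV_inter {X Y : Set (Str L)} (hX : IsQV X) (hY : IsQV Y) : IsQV (X ∩ Y) := by
  obtain ⟨Q, rfl⟩ := hX
  obtain ⟨Q', rfl⟩ := hY
  refine ⟨Q ∪ Q', Set.Subset.antisymm ?_ ?_⟩
  · rintro M ⟨h1, h2⟩ φ (hφ | hφ)
    · exact h1 φ hφ
    · exact h2 φ hφ
  · exact Set.subset_inter (mod_anti Set.subset_union_left) (mod_anti Set.subset_union_right)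

/-- the join of two subquasivarieties -/
def J {K : Set (Str L)} (hK : IsQV K) (X Y : SubQ K) : SubQ K :=
  ⟨Mod (ThQ X.1 ∩ ThQ Y.1), ⟨_, rfl⟩,
    (mod_anti (Set.subset_inter (th_anti X.2.2) (th_anti Y.2.2))).trans (isQV_th hK)⟩

theorem le_def {K : Set (Str L)} {X Y : SubQ K} : X ≤ Y ↔ X.1 ⊆ Y.1 := Iff.rfl

theorem J_isLUB {K : Set (Str L)} (hK : IsQV K) (X Y : SubQ K) :
    X ≤ J hK X Y ∧ Y ≤ J hK X Y ∧ ∀ Z : SubQ K, X ≤ Z → Y ≤ Z → J hK X Y ≤ Z := by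
  refine ⟨?_, ?_, ?_⟩
  · exact le_def.2 ((sub_mod_th X.1).trans (mod_anti Set.inter_subset_left))
  · exact le_def.2 ((sub_mod_th Y.1).trans (mod_anti Set.inter_subset_right))
  · intro Z h1 h2
    exact le_def.2 ((mod_anti (Set.subset_inter (th_anti h1) (th_anti h2))).trans
      (isQV_th Z.2.1))

/-- the meet of two subquasivarieties -/
def I {K : Set (Str L)} (X Y : SubQ K) : SubQ K :=
  ⟨X.1 ∩ Y.1, isQV_inter X.2.1 Y.2.1, Set.inter_subset_left.trans X.2.2⟩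

end SDN

theorem sd_of_isLQ {α : Type} [Lattice α] (h : IsLQ α) :
    ∀ x y z : α, x ⊔ y = x ⊔ z → x ⊔ (y ⊓ z) = x ⊔ y := by
  obtain ⟨L, K, hK, ⟨e⟩⟩ := h
  intro x y z hxyz
  have hsup : ∀ a b : α, e (a ⊔ b) = SDN.J hK (e a) (e b) := by
    intro a b
    obtain ⟨h1, h2, h3⟩ := SDN.J_isLUB hK (e a) (e b)
    apply le_antisymm
    · obtain ⟨c, hc⟩ := e.surjective (SDN.J hK (e a) (e b))
      rw [← hc] at h1 h2 ⊢
      rw [e.le_iff_le] at h1 h2 ⊢
      exact sup_le h1 h2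
    · exact h3 _ (e.le_iff_le.2 le_sup_left) (e.le_iff_le.2 le_sup_right)
  have hinf : ∀ a b : α, e (a ⊓ b) = SDN.I (e a) (e b) := by
    intro a b
    apply le_antisymm
    · exact SDN.le_def.2 (Set.subset_inter (e.le_iff_le.2 inf_le_left)
        (e.le_iff_le.2 inf_le_right))
    · have h1 : SDN.I (e a) (e b) ≤ e a := SDN.le_def.2 Set.inter_subset_left
      have h2 : SDN.I (e a) (e b) ≤ e b := SDN.le_def.2 Set.inter_subset_right
      obtain ⟨c, hc⟩ := e.surjective (SDN.I (e a) (e b))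
      rw [← hc] at h1 h2 ⊢
      rw [e.le_iff_le] at h1 h2 ⊢
      exact le_inf h1 h2
  have hth : ThQ (e x).1 ∩ ThQ (e y).1 = ThQ (e x).1 ∩ ThQ (e z).1 := by
    have h1 : SDN.J hK (e x) (e y) = SDN.J hK (e x) (e z) := by
      rw [← hsup, ← hsup, hxyz]
    have h2 : ThQ (SDN.J hK (e x) (e y)).1 = ThQ (SDN.J hK (e x) (e z)).1 := by rw [h1]
    have h3 := SDN.th_inter (e x).1 (e y).1
    have h4 := SDN.th_inter (e x).1 (e z).1
    rw [← h3, ← h4]
    exact h2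
  apply le_antisymm (sup_le_sup_left inf_le_left x)
  rw [← e.le_iff_le, hsup, hsup, hinf]
  refine SDN.le_def.2 (SDN.mod_anti ?_)
  intro φ hφ
  exact ⟨hφ.1, sd_theories (e y).2.1 (e z).2.1 hth hφ.1 hφ.2⟩

end C5E17
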