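import Pool.Agent.Lib.MP_c5e17c_al.OA.Classify
import Pool.Agent.Lib.MP_c5e17c_al.OA.QIso
import Pool.Agent.Lib.MP_c5e17c_al.OA.SDN

/-!
# MP_c5e17c_al, project OA: finite lattices of quasivarieties with one atom
-/

set_option autoImplicit false

namespace C5E17

/-- every finite meet-semidistributive lattice `N`: the dual of `N` with a new least element is a
lattice of quasivarieties -/
theorem isLQ_withBot_dual {N : Type} [Lattice N] [BoundedOrder N] [Finite N]
    (sd : ∀ x y z : N, x ⊓ y = x ⊓ z → x ⊓ (y ⊔ z) = x ⊓ y) : IsLQ (WithBot Nᵒᵈ) := by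
  obtain ⟨e1⟩ := iso_closed sd
  have hact : ∀ (f : Contr N) (s t : Tree N), actC f (s ⊔ t) = actC f s ⊔ actC f t :=
    fun f s t => f.map_sup' s t
  obtain ⟨e2⟩ := subQ_iso (S := Tree N) (F := Contr N) hact
  exact ⟨LK (Tree N) (Contr N), KK (actC (N := N)), isQV_KK _,
    ⟨(OrderIso.withBotCongr e1.dual).trans e2.symm⟩⟩

theorem IsLQ.congr {α β : Type} [LE α] [LE β] (e : α ≃o β) (h : IsLQ β) : IsLQ α := by
  obtain ⟨L, K, hK, ⟨e'⟩⟩ := h
  exact ⟨L, K, hK, ⟨e.trans e'⟩⟩

namespace Final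

/-- the order isomorphism between a bounded order with one atom and the elements above the atom
with a new least element -/
theorem iso_withBot {α : Type} [Lattice α] [BoundedOrder α] (a : α) (ha : ¬ a ≤ ⊥)
    (h : ∀ x : α, x ≠ ⊥ → a ≤ x) : Nonempty (α ≃o WithBot (Set.Ici a)) := by
  let f : WithBot (Set.Ici a) → α := fun x => x.recBotCoe ⊥ (fun y => (y : α))
  have hf : ∀ x y : WithBot (Set.Ici a), f x ≤ f y ↔ x ≤ y := by
    intro x y
    induction x using WithBot.recBotCoe with
    | bot => exact ⟨fun _ => bot_le, fun _ => bot_le⟩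
    | coe x =>
      induction y using WithBot.recBotCoe with
      | bot =>
        constructor
        · intro h'
          exact absurd (le_trans x.2 h') ha
        · intro h'
          exact absurd h' (WithBot.not_coe_le_bot x)
      | coe y =>
        rw [WithBot.coe_le_coe]
        exact Iff.rfl
  have hs : Function.Surjective f := by
    intro x
    by_cases hx : x = ⊥
    · exact ⟨⊥, hx.symm⟩
    · exact ⟨((⟨x, h x hx⟩ : Set.Ici a) : WithBot (Set.Ici a)), rfl⟩
  exact ⟨(RelIso.ofSurjective (OrderEmbedding.ofMapLEIff f hf) hs).symm⟩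

end Final

/-- the main theorem: a finite lattice with exactly one atom is a lattice of quasivarieties iff it
is join-semidistributive -/
theorem one_atom {α : Type} [Lattice α] [BoundedOrder α] [Finite α] (hα : ∃! a : α, IsAtom a) :
    IsLQ α ↔ ∀ x y z : α, x ⊔ y = x ⊔ z → x ⊔ (y ⊓ z) = x ⊔ y := by
  refine ⟨sd_of_isLQ, fun hsd => ?_⟩
  obtain ⟨a, ha, hu⟩ := hα
  have hle : ∀ x : α, x ≠ ⊥ → a ≤ x := by
    intro x hx
    obtain h | ⟨b, hb, hbx⟩ := eq_bot_or_exists_atom_le x
    · exact absurd h hx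
    · have : b = a := hu b hb
      exact this ▸ hbx
  obtain ⟨e⟩ := Final.iso_withBot a (fun h => ha.1 (le_bot_iff.1 h)) hle
  let _ : BoundedOrder (Set.Ici a) :=
    { top := ⟨⊤, le_top⟩
      le_top := fun x => Subtype.coe_le_coe.1 le_top
      bot := ⟨a, le_refl a⟩
      bot_le := fun x => x.2 }
  have key : IsLQ (WithBot ((Set.Ici a)ᵒᵈ)ᵒᵈ) := by
    refine isLQ_withBot_dual (N := (Set.Ici a)ᵒᵈ) ?_
    intro x y z hxyz
    have h1 : ((OrderDual.ofDual x : Set.Ici a) : α) ⊔ (OrderDual.ofDual y : Set.Ici a)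
        = ((OrderDual.ofDual x : Set.Ici a) : α) ⊔ (OrderDual.ofDual z : Set.Ici a) :=
      congrArg (fun t : (Set.Ici a)ᵒᵈ => ((OrderDual.ofDual t : Set.Ici a) : α)) hxyz
    have h2 := hsd _ _ _ h1
    exact Subtype.ext h2
  refine IsLQ.congr (e.trans (OrderIso.withBotCongr ?_)) key
  exact OrderIso.refl _

end C5E17
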