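import Pool.Agent.Lib.MP_c5e17c_al.OA.Final

/-!
# MP_c5e17c_al, project OA: computability of the set of one-atom lattices of quasivarieties
-/

set_option autoImplicit false

namespace C5E17

/-- the entry `(i, j)` of the Boolean matrix `m` (a list of rows) is `true` -/
def ent (m : List (List Bool)) (i j : ℕ) : Prop := (m.getD i []).getD j false = true

/-- the Boolean matrix `m` presents the finite ordered set `α`: the rows are numbered by the
elements of `α`, and the entry `(i, j)` tells whether the `i`-th element is `≤` the `j`-th one -/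
def Presents (m : List (List Bool)) (α : Type) [LE α] : Prop :=
  ∃ e : Fin m.length ≃ α, ∀ i j : Fin m.length, ent m i j ↔ e i ≤ e j

namespace Comp

/-! ### The elementary conditions over a type -/

/-- `s` is a least upper bound of `i` and `j` for the relation `r` -/
private def IsS {β : Type} (r : β → β → Prop) (i j s : β) : Prop :=
  r i s ∧ r j s ∧ ∀ t, r i t → r j t → r s t

/-- `s` is a greatest lower bound of `i` and `j` for the relation `r` -/
private def IsI {β : Type} (r : β → β → Prop) (i j s : β) : Prop :=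
  r s i ∧ r s j ∧ ∀ t, r t i → r t j → r t s

/-- the conditions on a relation: a join-semidistributive lattice with bounds, and with exactly
one atom -/
private structure Cond {β : Type} (r : β → β → Prop) : Prop where
  rfl' : ∀ i, r i i
  trans' : ∀ i j k, r i j → r j k → r i k
  antisymm' : ∀ i j, r i j → r j i → i = j
  sup' : ∀ i j, ∃ s, IsS r i j s
  inf' : ∀ i j, ∃ s, IsI r i j s
  top' : ∃ t, ∀ x, r x t
  atom' : ∃ b a, (∀ x, r b x) ∧ a ≠ b ∧ ∀ x, x ≠ b → r a x
  sd' : ∀ x y z s p u, IsS r x y s → IsS r x z s → IsI r y z p → IsS r x p u → u = s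

private theorem isS_iff {α β : Type} [Lattice α] (e : β ≃ α) (i j s : β) :
    IsS (fun x y => e x ≤ e y) i j s ↔ e s = e i ⊔ e j := by
  constructor
  · rintro ⟨h1, h2, h3⟩
    apply le_antisymm
    · have := h3 (e.symm (e i ⊔ e j)) (by simp) (by simp)
      simpa using this
    · exact sup_le h1 h2
  · intro h
    refine ⟨?_, ?_, ?_⟩
    · show e i ≤ e s
      rw [h]; exact le_sup_left
    · show e j ≤ e s
      rw [h]; exact le_sup_right
    · intro t h1 h2
      show e s ≤ e t
      rw [h]; exact sup_le h1 h2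

private theorem isI_iff {α β : Type} [Lattice α] (e : β ≃ α) (i j s : β) :
    IsI (fun x y => e x ≤ e y) i j s ↔ e s = e i ⊓ e j := by
  constructor
  · rintro ⟨h1, h2, h3⟩
    apply le_antisymm
    · exact le_inf h1 h2
    · have := h3 (e.symm (e i ⊓ e j)) (by simp) (by simp)
      simpa using this
  · intro h
    refine ⟨?_, ?_, ?_⟩
    · show e s ≤ e i
      rw [h]; exact inf_le_left
    · show e s ≤ e j
      rw [h]; exact inf_le_right
    · intro t h1 h2
      show e t ≤ e s
      rw [h]; exact le_inf h1 h2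

private theorem cond_of {α β : Type} [Lattice α] [BoundedOrder α] [Finite α]
    (hα : ∃! a : α, IsAtom a) (hq : IsLQ α) (e : β ≃ α) : Cond (fun x y => e x ≤ e y) := by
  obtain ⟨a, ha, hu⟩ := hα
  refine ⟨fun i => le_rfl, fun i j k h1 h2 => le_trans h1 h2,
    fun i j h1 h2 => e.injective (le_antisymm h1 h2), ?_, ?_, ?_, ?_, ?_⟩
  · intro i j
    exact ⟨e.symm (e i ⊔ e j), (isS_iff e _ _ _).2 (by simp)⟩
  · intro i j
    exact ⟨e.symm (e i ⊓ e j), (isI_iff e _ _ _).2 (by simp)⟩
  · exact ⟨e.symm ⊤, by simp⟩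
  · refine ⟨e.symm ⊥, e.symm a, by simp, ?_, ?_⟩
    · intro h
      exact ha.1 (e.symm.injective h)
    · intro x hx
      have hx' : e x ≠ ⊥ := by
        intro h
        apply hx
        rw [← h]; simp
      show e (e.symm a) ≤ e x
      rw [Equiv.apply_symm_apply]
      rcases IsAtomic.eq_bot_or_exists_atom_le (e x) with h | ⟨c, hc, hcx⟩
      · exact absurd h hx'
      · rw [← hu c hc]; exact hcx
  · intro x y z s p u h1 h2 h3 h4
    rw [isS_iff] at h1 h2 h4
    rw [isI_iff] at h3
    have sd := (one_atom ⟨a, ha, hu⟩).1 hq (e x) (e y) (e z) (h1.symm.trans h2)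
    apply e.injective
    rw [h4, h3, sd, h1]

private theorem of_cond {β : Type} [Finite β] (r : β → β → Prop) (h : Cond r) :
    ∃ (_ : Lattice β) (_ : BoundedOrder β), (∀ x y, r x y ↔ x ≤ y) ∧ (∃! a : β, IsAtom a) ∧
      IsLQ β := by
  classical
  obtain ⟨b, a, hb, hab, ha⟩ := h.atom'
  obtain ⟨t, ht⟩ := h.top'
  choose sup hsup using h.sup'
  choose inf hinf using h.inf'
  let L : Lattice β :=
    { le := r
      le_refl := h.rfl'
      le_trans := h.trans'
      le_antisymm := h.antisymm'
      sup := sup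
      le_sup_left := fun x y => (hsup x y).1
      le_sup_right := fun x y => (hsup x y).2.1
      sup_le := fun x y z h1 h2 => (hsup x y).2.2 z h1 h2
      inf := inf
      inf_le_left := fun x y => (hinf x y).1
      inf_le_right := fun x y => (hinf x y).2.1
      le_inf := fun x y z h1 h2 => (hinf y z).2.2 x h1 h2 }
  let B : BoundedOrder β :=
    { top := t
      le_top := ht
      bot := b
      bot_le := hb }
  have hle : ∀ x y : β, r x y ↔ x ≤ y := fun x y => Iff.rfl
  have hbot : (⊥ : β) = b := rfl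
  have hatom : ∃! c : β, IsAtom c := by
    refine ⟨a, ⟨by rw [hbot]; exact hab, ?_⟩, ?_⟩
    · intro c hc
      by_contra hcb
      exact absurd (ha c hcb) (not_le_of_gt hc)
    · intro c hc
      have h1 : a ≤ c := ha c hc.1
      rcases hc.le_iff.1 h1 with h2 | h2
      · exact absurd h2 hab
      · exact h2.symm
  refine ⟨L, B, hle, hatom, ?_⟩
  rw [one_atom hatom]
  intro x y z hxy
  have e : (fun x y : β => (Equiv.refl β) x ≤ (Equiv.refl β) y) = r := rfl
  have h1 : IsS r x y (x ⊔ y) := by rw [← e, isS_iff]; rfl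
  have h2 : IsS r x z (x ⊔ y) := by rw [← e, isS_iff]; exact hxy
  have h3 : IsI r y z (y ⊓ z) := by rw [← e, isI_iff]; rfl
  have h4 : IsS r x (y ⊓ z) (x ⊔ (y ⊓ z)) := by rw [← e, isS_iff]; rfl
  exact h.sd' _ _ _ _ _ _ h1 h2 h3 h4

private theorem cond_iff (m : List (List Bool)) :
    (∃ (α : Type) (_ : Lattice α) (_ : BoundedOrder α),
      Presents m α ∧ (∃! a : α, IsAtom a) ∧ IsLQ α) ↔
      Cond (fun i j : Fin m.length => ent m i j) := by
  constructor
  · rintro ⟨α, _, _, ⟨e, he⟩, hat, hq⟩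
    have : Finite α := Finite.of_equiv _ e
    have h := cond_of hat hq e
    have h2 : (fun i j : Fin m.length => ent m i j) = (fun x y => e x ≤ e y) := by
      funext i j
      exact propext (he i j)
    rw [h2]
    exact h
  · intro h
    obtain ⟨L, B, h1, h2, h3⟩ := of_cond _ h
    exact ⟨Fin m.length, L, B, ⟨Equiv.refl _, fun i j => h1 i j⟩, h2, h3⟩

/-! ### The same conditions with bounded quantifiers over the natural numbers -/

/-- `s` is a least upper bound of `i` and `j` in the matrix `m` -/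
private def NS (m : List (List Bool)) (i j s : ℕ) : Prop :=
  ent m i s ∧ ent m j s ∧ ∀ t < m.length, ent m i t → ent m j t → ent m s t

/-- `s` is a greatest lower bound of `i` and `j` in the matrix `m` -/
private def NI (m : List (List Bool)) (i j s : ℕ) : Prop :=
  ent m s i ∧ ent m s j ∧ ∀ t < m.length, ent m t i → ent m t j → ent m t s

/-- the bounded conditions -/
private def NC (m : List (List Bool)) : Prop :=
  (∀ i < m.length, ent m i i) ∧
  (∀ i < m.length, ∀ j < m.length, ∀ k < m.length, ent m i j → ent m j k → ent m i k) ∧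
  (∀ i < m.length, ∀ j < m.length, ent m i j → ent m j i → i = j) ∧
  (∀ i < m.length, ∀ j < m.length, ∃ s < m.length, NS m i j s) ∧
  (∀ i < m.length, ∀ j < m.length, ∃ s < m.length, NI m i j s) ∧
  (∃ t < m.length, ∀ x < m.length, ent m x t) ∧
  (∃ b < m.length, ∃ a < m.length, (∀ x < m.length, ent m b x) ∧ ¬ a = b ∧
    ∀ x < m.length, ¬ x = b → ent m a x) ∧
  (∀ x < m.length, ∀ y < m.length, ∀ z < m.length, ∀ s < m.length, ∀ p < m.length,
    ∀ u < m.length, NS m x y s → NS m x z s → NI m y z p → NS m x p u → u = s)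

private theorem nS_iff (m : List (List Bool)) (i j s : Fin m.length) :
    IsS (fun i j : Fin m.length => ent m i j) i j s ↔ NS m i j s := by
  simp only [IsS, NS, Fin.forall_iff]

private theorem nI_iff (m : List (List Bool)) (i j s : Fin m.length) :
    IsI (fun i j : Fin m.length => ent m i j) i j s ↔ NI m i j s := by
  simp only [IsI, NI, Fin.forall_iff]

private theorem nc_iff (m : List (List Bool)) :
    Cond (fun i j : Fin m.length => ent m i j) ↔ NC m := by
  constructor
  · rintro ⟨h1, h2, h3, h4, h5, h6, h7, h8⟩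
    simp only [nS_iff, nI_iff, Fin.forall_iff, Fin.exists_iff, Fin.mk.injEq, ne_eq] at *
    refine ⟨h1, ?_, ?_, ?_, ?_, ?_, ?_, ?_⟩
    · intro i hi j hj k hk
      exact h2 i hi j hj k hk
    · intro i hi j hj
      exact h3 i hi j hj
    · intro i hi j hj
      obtain ⟨s, hs, h⟩ := h4 i hi j hj
      exact ⟨s, hs, h⟩
    · intro i hi j hj
      obtain ⟨s, hs, h⟩ := h5 i hi j hj
      exact ⟨s, hs, h⟩
    · obtain ⟨s, hs, h⟩ := h6
      exact ⟨s, hs, h⟩
    · obtain ⟨b, hb, a, ha, h⟩ := h7
      exact ⟨b, hb, a, ha, h⟩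
    · intro x hx y hy z hz s hs p hp u hu
      exact h8 x hx y hy z hz s hs p hp u hu
  · rintro ⟨h1, h2, h3, h4, h5, h6, h7, h8⟩
    refine ⟨?_, ?_, ?_, ?_, ?_, ?_, ?_, ?_⟩
    all_goals simp only [nS_iff, nI_iff, Fin.forall_iff, Fin.exists_iff, Fin.mk.injEq, ne_eq]
    · exact h1
    · intro i hi j hj k hk
      exact h2 i hi j hj k hk
    · intro i hi j hj
      exact h3 i hi j hj
    · intro i hi j hj
      obtain ⟨s, hs, h⟩ := h4 i hi j hj
      exact ⟨s, hs, h⟩
    · intro i hi j hj
      obtain ⟨s, hs, h⟩ := h5 i hi j hj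
      exact ⟨s, hs, h⟩
    · obtain ⟨s, hs, h⟩ := h6
      exact ⟨s, hs, h⟩
    · obtain ⟨b, hb, a, ha, h⟩ := h7
      exact ⟨b, hb, a, ha, h⟩
    · intro x hx y hy z hz s hs p hp u hu
      exact h8 x hx y hy z hz s hs p hp u hu

/-! ### Primitive recursiveness -/

open Primrec in
private theorem all_lt {γ : Type} [Primcodable γ] {b : γ → ℕ} (hb : Primrec b)
    {p : γ → ℕ → Prop} (hp : PrimrecPred fun q : γ × ℕ => p q.1 q.2) :
    PrimrecPred fun c => ∀ i < b c, p c i := by
  have h1 : PrimrecRel fun (i : ℕ) (c : γ) => p c i :=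
    hp.comp (Primrec.pair Primrec.snd Primrec.fst)
  exact (h1.forall_mem_list.comp (list_range.comp hb) Primrec.id).of_eq (by simp)

open Primrec in
private theorem ex_lt {γ : Type} [Primcodable γ] {b : γ → ℕ} (hb : Primrec b)
    {p : γ → ℕ → Prop} (hp : PrimrecPred fun q : γ × ℕ => p q.1 q.2) :
    PrimrecPred fun c => ∃ i < b c, p c i := by
  have h1 : PrimrecRel fun (i : ℕ) (c : γ) => p c i :=
    hp.comp (Primrec.pair Primrec.snd Primrec.fst)
  exact (h1.exists_mem_list.comp (list_range.comp hb) Primrec.id).of_eq (by simp)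

private theorem imp {γ : Type} [Primcodable γ] {p q : γ → Prop} (hp : PrimrecPred p)
    (hq : PrimrecPred q) : PrimrecPred fun c => p c → q c := by
  classical
  exact (hp.not.or hq).of_eq fun c => by tauto

private theorem pent {γ : Type} [Primcodable γ] {f : γ → List (List Bool)} {g h : γ → ℕ}
    (hf : Primrec f) (hg : Primrec g) (hh : Primrec h) :
    PrimrecPred fun c => ent (f c) (g c) (h c) :=
  Primrec.eq.comp ((Primrec.list_getD false).comp ((Primrec.list_getD []).comp hf hg) hh)
    (Primrec.const true)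

private theorem pNS {γ : Type} [Primcodable γ] {f : γ → List (List Bool)} {g h k : γ → ℕ}
    (hf : Primrec f) (hg : Primrec g) (hh : Primrec h) (hk : Primrec k) :
    PrimrecPred fun c => NS (f c) (g c) (h c) (k c) :=
  (pent hf hg hk).and ((pent hf hh hk).and (all_lt (Primrec.list_length.comp hf)
    (imp (pent (hf.comp Primrec.fst) (hg.comp Primrec.fst) Primrec.snd)
      (imp (pent (hf.comp Primrec.fst) (hh.comp Primrec.fst) Primrec.snd)
        (pent (hf.comp Primrec.fst) (hk.comp Primrec.fst) Primrec.snd)))))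

private theorem pNI {γ : Type} [Primcodable γ] {f : γ → List (List Bool)} {g h k : γ → ℕ}
    (hf : Primrec f) (hg : Primrec g) (hh : Primrec h) (hk : Primrec k) :
    PrimrecPred fun c => NI (f c) (g c) (h c) (k c) :=
  (pent hf hk hg).and ((pent hf hk hh).and (all_lt (Primrec.list_length.comp hf)
    (imp (pent (hf.comp Primrec.fst) Primrec.snd (hg.comp Primrec.fst))
      (imp (pent (hf.comp Primrec.fst) Primrec.snd (hh.comp Primrec.fst))
        (pent (hf.comp Primrec.fst) Primrec.snd (hk.comp Primrec.fst))))))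

open Primrec in
private theorem primrec_NC : PrimrecPred NC := by
  have l0 : Primrec fun m : List (List Bool) => m.length := list_length
  refine PrimrecPred.and ?_ (PrimrecPred.and ?_ (PrimrecPred.and ?_ (PrimrecPred.and ?_
    (PrimrecPred.and ?_ (PrimrecPred.and ?_ (PrimrecPred.and ?_ ?_))))))
  · exact all_lt l0 (pent fst snd snd)
  · refine all_lt l0 (all_lt (l0.comp fst) (all_lt (l0.comp (fst.comp fst)) ?_))
    have m0 : Primrec fun q : ((List (List Bool) × ℕ) × ℕ) × ℕ => q.1.1.1 :=
      fst.comp (fst.comp fst)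
    have i0 : Primrec fun q : ((List (List Bool) × ℕ) × ℕ) × ℕ => q.1.1.2 :=
      snd.comp (fst.comp fst)
    have j0 : Primrec fun q : ((List (List Bool) × ℕ) × ℕ) × ℕ => q.1.2 :=
      snd.comp fst
    have k0 : Primrec fun q : ((List (List Bool) × ℕ) × ℕ) × ℕ => q.2 := snd
    exact imp (pent m0 i0 j0) (imp (pent m0 j0 k0) (pent m0 i0 k0))
  · refine all_lt l0 (all_lt (l0.comp fst) ?_)
    have m0 : Primrec fun q : (List (List Bool) × ℕ) × ℕ => q.1.1 := fst.comp fst
    have i0 : Primrec fun q : (List (List Bool) × ℕ) × ℕ => q.1.2 := snd.comp fst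
    have j0 : Primrec fun q : (List (List Bool) × ℕ) × ℕ => q.2 := snd
    exact imp (pent m0 i0 j0) (imp (pent m0 j0 i0) (Primrec.eq.comp i0 j0))
  · refine all_lt l0 (all_lt (l0.comp fst) (ex_lt (l0.comp (fst.comp fst)) ?_))
    have m0 : Primrec fun q : ((List (List Bool) × ℕ) × ℕ) × ℕ => q.1.1.1 :=
      fst.comp (fst.comp fst)
    have i0 : Primrec fun q : ((List (List Bool) × ℕ) × ℕ) × ℕ => q.1.1.2 :=
      snd.comp (fst.comp fst)
    have j0 : Primrec fun q : ((List (List Bool) × ℕ) × ℕ) × ℕ => q.1.2 :=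
      snd.comp fst
    have k0 : Primrec fun q : ((List (List Bool) × ℕ) × ℕ) × ℕ => q.2 := snd
    exact pNS m0 i0 j0 k0
  · refine all_lt l0 (all_lt (l0.comp fst) (ex_lt (l0.comp (fst.comp fst)) ?_))
    have m0 : Primrec fun q : ((List (List Bool) × ℕ) × ℕ) × ℕ => q.1.1.1 :=
      fst.comp (fst.comp fst)
    have i0 : Primrec fun q : ((List (List Bool) × ℕ) × ℕ) × ℕ => q.1.1.2 :=
      snd.comp (fst.comp fst)
    have j0 : Primrec fun q : ((List (List Bool) × ℕ) × ℕ) × ℕ => q.1.2 :=
      snd.comp fst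
    have k0 : Primrec fun q : ((List (List Bool) × ℕ) × ℕ) × ℕ => q.2 := snd
    exact pNI m0 i0 j0 k0
  · exact ex_lt l0 (all_lt (l0.comp fst) (pent (fst.comp fst) snd (snd.comp fst)))
  · refine ex_lt l0 (ex_lt (l0.comp fst) ?_)
    have m0 : Primrec fun q : (List (List Bool) × ℕ) × ℕ => q.1.1 := fst.comp fst
    have b0 : Primrec fun q : (List (List Bool) × ℕ) × ℕ => q.1.2 := snd.comp fst
    have a0 : Primrec fun q : (List (List Bool) × ℕ) × ℕ => q.2 := snd
    refine (all_lt (l0.comp m0) (pent (m0.comp fst) (b0.comp fst) snd)).and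
      ((Primrec.eq.comp a0 b0).not.and (all_lt (l0.comp m0)
        (imp (Primrec.eq.comp snd (b0.comp fst)).not (pent (m0.comp fst) (a0.comp fst) snd))))
  · refine all_lt l0 (all_lt (l0.comp fst) (all_lt (l0.comp (fst.comp fst))
      (all_lt (l0.comp (fst.comp (fst.comp fst)))
      (all_lt (l0.comp (fst.comp (fst.comp (fst.comp fst))))
      (all_lt (l0.comp (fst.comp (fst.comp (fst.comp (fst.comp fst))))) ?_)))))
    have m0 : Primrec fun q : ((((((List (List Bool) × ℕ) × ℕ) × ℕ) × ℕ) × ℕ) × ℕ) =>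
      q.1.1.1.1.1.1 := fst.comp (fst.comp (fst.comp (fst.comp (fst.comp fst))))
    have x0 : Primrec fun q : ((((((List (List Bool) × ℕ) × ℕ) × ℕ) × ℕ) × ℕ) × ℕ) =>
      q.1.1.1.1.1.2 := snd.comp (fst.comp (fst.comp (fst.comp (fst.comp fst))))
    have y0 : Primrec fun q : ((((((List (List Bool) × ℕ) × ℕ) × ℕ) × ℕ) × ℕ) × ℕ) =>
      q.1.1.1.1.2 := snd.comp (fst.comp (fst.comp (fst.comp fst)))
    have z0 : Primrec fun q : ((((((List (List Bool) × ℕ) × ℕ) × ℕ) × ℕ) × ℕ) × ℕ) =>
      q.1.1.1.2 := snd.comp (fst.comp (fst.comp fst))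
    have s0 : Primrec fun q : ((((((List (List Bool) × ℕ) × ℕ) × ℕ) × ℕ) × ℕ) × ℕ) =>
      q.1.1.2 := snd.comp (fst.comp fst)
    have p0 : Primrec fun q : ((((((List (List Bool) × ℕ) × ℕ) × ℕ) × ℕ) × ℕ) × ℕ) =>
      q.1.2 := snd.comp fst
    have u0 : Primrec fun q : ((((((List (List Bool) × ℕ) × ℕ) × ℕ) × ℕ) × ℕ) × ℕ) =>
      q.2 := snd
    exact imp (pNS m0 x0 y0 s0) (imp (pNS m0 x0 z0 s0) (imp (pNI m0 y0 z0 p0)
      (imp (pNS m0 x0 p0 u0) (Primrec.eq.comp u0 s0))))

end Comp

/-- the set of all presentations of finite lattices of quasivarieties with exactly one atom is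
computable -/
theorem computable_one_atom : ComputablePred fun m : List (List Bool) =>
    ∃ (α : Type) (_ : Lattice α) (_ : BoundedOrder α),
      Presents m α ∧ (∃! a : α, IsAtom a) ∧ IsLQ α := by
  have h : (fun m : List (List Bool) => ∃ (α : Type) (_ : Lattice α) (_ : BoundedOrder α),
      Presents m α ∧ (∃! a : α, IsAtom a) ∧ IsLQ α) = Comp.NC := by
    funext m
    exact propext ((Comp.cond_iff m).trans (Comp.nc_iff m))
  rw [h]
  exact Comp.primrec_NC.computablePred

end C5E17
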