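import Pool.Agent.Lib.MP_c5e17c_al.OA.Delta

/-!
# MP_c5e17c_al, project OA: adding a set `Q` of words to a tame tree `p` with weight `z`
-/

set_option autoImplicit false

namespace C5E17

namespace Add

section Aux

variable {N : Type} [Lattice N] [BoundedOrder N]

open Classical in
/-- the weight of the extended tree -/
noncomputable def F (δ : N → N → N) (p Q : Set (List N)) (f : List N → N) (z : N) :
    List N → N
  | [] => if ([] : List N) ∈ p then f [] ⊔ z else if ([] : List N) ∈ Q then z else ⊥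
  | c :: w => if c :: w ∈ p then f (c :: w) ⊔ z else if c :: w ∈ Q then z else
      if w ∈ p ∨ w ∈ Q then δ z c else δ (F δ p Q f z w) c

/-- membership in the extended tree -/
def InV (δ : N → N → N) (p Q : Set (List N)) (f : List N → N) (z : N) : List N → Prop
  | [] => ([] : List N) ∈ p ∨ ([] : List N) ∈ Q
  | c :: w => InV δ p Q f z w ∧ ¬ F δ p Q f z w ≤ c

variable {δ : N → N → N} {p Q : Set (List N)} {f : List N → N} {z : N}

theorem F_p {w : List N} (hw : w ∈ p) : F δ p Q f z w = f w ⊔ z := by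
  cases w with
  | nil => simp only [F, if_pos hw]
  | cons c w => simp only [F, if_pos hw]

theorem F_Q {w : List N} (hp : w ∉ p) (hw : w ∈ Q) : F δ p Q f z w = z := by
  cases w with
  | nil => simp only [F, if_neg hp, if_pos hw]
  | cons c w => simp only [F, if_neg hp, if_pos hw]

theorem F_f1 {c : N} {w : List N} (hp : c :: w ∉ p) (hq : c :: w ∉ Q) (hw : w ∈ p ∨ w ∈ Q) :
    F δ p Q f z (c :: w) = δ z c := by
  simp only [F, if_neg hp, if_neg hq, if_pos hw]

theorem F_f2 {c : N} {w : List N} (hp : c :: w ∉ p) (hq : c :: w ∉ Q)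
    (hw : ¬ (w ∈ p ∨ w ∈ Q)) :
    F δ p Q f z (c :: w) = δ (F δ p Q f z w) c := by
  simp only [F, if_neg hp, if_neg hq, if_neg hw]

theorem le_F {w : List N} (hw : w ∈ p ∨ w ∈ Q) : z ≤ F δ p Q f z w := by
  by_cases hp : w ∈ p
  · rw [F_p hp]; exact le_sup_right
  · rw [F_Q hp (hw.resolve_left hp)]

variable {rk : List N → ℕ} {k : List N → N}

/-- Fact A -/
theorem factA (hc : Cert p f rk k) {c : N} {w : List N} (h : InV δ p Q f z (c :: w))
    (hw : w ∈ p ∨ w ∈ Q) (hp : c :: w ∉ p) : ¬ z ≤ c := by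
  have h2 : ¬ F δ p Q f z w ≤ c := h.2
  by_cases hwp : w ∈ p
  · rw [F_p hwp] at h2
    have h3 : f w ≤ c := by
      by_contra hcon
      exact hp ((hc.cons c w).2 ⟨hwp, hcon⟩)
    exact fun hz => h2 (sup_le h3 hz)
  · rwa [F_Q hwp (hw.resolve_left hwp)] at h2

/-- Fact B -/
theorem factB (hc : Cert p f rk k) {κ : N → N}
    (hδ : ∀ g c : N, ¬ g ≤ c →
      δ g c ≤ g ∧ ¬ δ g c ≤ c ∧ c ≤ κ (δ g c) ∧ ¬ δ g c ≤ κ (δ g c)) :
    ∀ w : List N, InV δ p Q f z w → w ∉ p → w ∉ Q →
      F δ p Q f z w ≤ z ∧ lst w ≤ κ (F δ p Q f z w) ∧ ¬ F δ p Q f z w ≤ κ (F δ p Q f z w)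
      ∧ ¬ z ≤ lst w := by
  intro w
  induction w with
  | nil =>
      intro h hp hq
      exact absurd h (by rintro (h | h); exacts [hp h, hq h])
  | cons c w ih =>
      intro h hp hq
      by_cases hw : w ∈ p ∨ w ∈ Q
      · have hz := factA hc h hw hp
        have h4 := hδ z c hz
        rw [F_f1 hp hq hw]
        exact ⟨h4.1, h4.2.2.1, h4.2.2.2, hz⟩
      · have hw' := not_or.1 hw
        have h5 := ih h.1 hw'.1 hw'.2
        have h4 := hδ _ c h.2
        rw [F_f2 hp hq hw]
        exact ⟨h4.1.trans h5.1, h4.2.2.1, h4.2.2.2, fun hz => h.2 (h5.1.trans hz)⟩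

/-- children of fillers are fillers -/
theorem child (hc : Cert p f rk k)
    (h1 : ∀ c w, c :: w ∈ Q → c :: w ∉ p → w ∈ p ∨ w ∈ Q)
    {c : N} {w : List N} (hp : w ∉ p) (hq : w ∉ Q) : c :: w ∉ p ∧ c :: w ∉ Q := by
  have hp' : c :: w ∉ p := fun h => hp ((hc.cons c w).1 h).1
  refine ⟨hp', fun h => ?_⟩
  rcases h1 c w h hp' with h | h
  · exact hp h
  · exact hq h

end Aux

end Add

open _root_.C5E17.Add in
theorem exists_add {N : Type} [Lattice N] [BoundedOrder N] [Finite N]
    (sd : ∀ x y z : N, x ⊓ y = x ⊓ z → x ⊓ (y ⊔ z) = x ⊓ y)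
    {p : Set (List N)} (hp : Tame p) (z : N) (Q : Set (List N))
    (rQ : List N → ℕ) (kQ : List N → N) (R : ℕ)
    (h1 : ∀ c w, c :: w ∈ Q → c :: w ∉ p → w ∈ p ∨ w ∈ Q)
    (h2 : ∀ w ∈ Q, w ∉ p → ¬ z ≤ kQ w ∧ lst w ≤ kQ w ∧ rQ w ≤ R)
    (h3 : ∀ c w, c :: w ∈ Q → c :: w ∉ p → w ∈ Q → w ∉ p →
      rQ (c :: w) < rQ w ∨ (rQ (c :: w) = rQ w ∧ kQ (c :: w) ≤ kQ w)) :
    ∃ V : Set (List N), Tame V ∧ p ⊆ V ∧ Q ⊆ V ∧ Le z V p := by
  classical
  obtain ⟨δ, κ, hδ⟩ := exists_delta sd
  obtain ⟨f, rk, k, hc⟩ := hp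
  -- (1) `p ∪ Q ⊆ V`
  have hsub : ∀ w : List N, (w ∈ p ∨ w ∈ Q) → InV δ p Q f z w := by
    intro w
    induction w with
    | nil => exact fun h => h
    | cons c w ih =>
        intro h
        by_cases hcp : c :: w ∈ p
        · have h4 := (hc.cons c w).1 hcp
          refine ⟨ih (Or.inl h4.1), ?_⟩
          rw [F_p h4.1]
          exact fun h5 => h4.2 (le_sup_left.trans h5)
        · have hcq : c :: w ∈ Q := h.resolve_left hcp
          have h4 := h1 c w hcq hcp
          refine ⟨ih h4, fun h5 => ?_⟩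
          have h6 := h2 _ hcq hcp
          exact h6.1 (((le_F h4).trans h5).trans h6.2.1)
  have hB := factB (Q := Q) (z := z) hc hδ
  let cnt : N → ℕ := fun x => (Set.Iic x).ncard
  have hcnt : ∀ x, cnt x ≤ (Set.univ : Set N).ncard := fun x =>
    Set.ncard_le_ncard (Set.subset_univ _) Set.finite_univ
  let M : ℕ := (Set.univ : Set N).ncard + 1
  let RK : List N → ℕ := fun w =>
    if w ∈ p then rk w + M + R + 1 else if w ∈ Q then rQ w + M else cnt (F δ p Q f z w)
  let K : List N → N := fun w =>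
    if w ∈ p then k w else if w ∈ Q then kQ w else κ (F δ p Q f z w)
  have RKp : ∀ {w}, w ∈ p → RK w = rk w + M + R + 1 := fun h => if_pos h
  have RKq : ∀ {w}, w ∉ p → w ∈ Q → RK w = rQ w + M := fun h h' =>
    (if_neg h).trans (if_pos h')
  have RKf : ∀ {w}, w ∉ p → w ∉ Q → RK w = cnt (F δ p Q f z w) := fun h h' =>
    (if_neg h).trans (if_neg h')
  have Kp : ∀ {w}, w ∈ p → K w = k w := fun h => if_pos h
  have Kq : ∀ {w}, w ∉ p → w ∈ Q → K w = kQ w := fun h h' =>
    (if_neg h).trans (if_pos h')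
  have Kf : ∀ {w}, w ∉ p → w ∉ Q → K w = κ (F δ p Q f z w) := fun h h' =>
    (if_neg h).trans (if_neg h')
  refine ⟨{w | InV δ p Q f z w}, ⟨F δ p Q f z, RK, K, ?_, ?_, ?_, ?_⟩,
    fun w hw => hsub w (Or.inl hw), fun w hw => hsub w (Or.inr hw), ?_⟩
  · intro c w
    exact Iff.rfl
  · intro w hw
    by_cases hwp : w ∈ p
    · rw [F_p hwp, Kp hwp]
      exact fun h => hc.nle w hwp (le_sup_left.trans h)
    · by_cases hwq : w ∈ Q
      · rw [F_Q hwp hwq, Kq hwp hwq]
        exact (h2 w hwq hwp).1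
      · rw [Kf hwp hwq]
        exact (hB w hw hwp hwq).2.2.1
  · intro w hw
    by_cases hwp : w ∈ p
    · rw [Kp hwp]
      exact hc.lst_le w hwp
    · by_cases hwq : w ∈ Q
      · rw [Kq hwp hwq]
        exact (h2 w hwq hwp).2.1
      · rw [Kf hwp hwq]
        exact (hB w hw hwp hwq).2.1
  · intro c w hw
    by_cases hwp : w ∈ p
    · by_cases hcp : c :: w ∈ p
      · rw [RKp hwp, RKp hcp, Kp hwp, Kp hcp]
        rcases hc.desc c w hcp with h | h
        · left; omega
        · right; exact ⟨by omega, h.2⟩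
      · left
        rw [RKp hwp]
        by_cases hcq : c :: w ∈ Q
        · rw [RKq hcp hcq]
          have := (h2 _ hcq hcp).2.2
          omega
        · rw [RKf hcp hcq]
          have := hcnt (F δ p Q f z (c :: w))
          omega
    · have hcp : c :: w ∉ p := fun h => hwp ((hc.cons c w).1 h).1
      by_cases hwq : w ∈ Q
      · by_cases hcq : c :: w ∈ Q
        · rw [RKq hwp hwq, RKq hcp hcq, Kq hwp hwq, Kq hcp hcq]
          rcases h3 c w hcq hcp hwq hwp with h | h
          · left; omega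
          · right; exact ⟨by omega, h.2⟩
        · left
          rw [RKq hwp hwq, RKf hcp hcq]
          have := hcnt (F δ p Q f z (c :: w))
          omega
      · have hcq := (child hc h1 (c := c) hwp hwq).2
        rw [RKf hwp hwq, RKf hcp hcq, Kf hwp hwq, Kf hcp hcq]
        have hF : F δ p Q f z (c :: w) = δ (F δ p Q f z w) c :=
          F_f2 hcp hcq (by rintro (h | h); exacts [hwp h, hwq h])
        have hle : F δ p Q f z (c :: w) ≤ F δ p Q f z w := by
          rw [hF]
          exact (hδ _ c hw.2).1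
        by_cases heq : F δ p Q f z (c :: w) = F δ p Q f z w
        · right
          rw [heq]
          exact ⟨rfl, le_rfl⟩
        · left
          by_contra hcon
          apply heq
          have h6 : Set.Iic (F δ p Q f z (c :: w)) = Set.Iic (F δ p Q f z w) :=
            Set.eq_of_subset_of_ncard_le (Set.Iic_subset_Iic.2 hle) (not_lt.1 hcon)
              (Set.toFinite _)
          exact Set.Iic_injective h6
  · intro w hw hz
    by_contra hwp
    by_cases hwq : w ∈ Q
    · have h6 := h2 w hwq hwp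
      exact h6.1 (hz.trans h6.2.1)
    · exact (hB w hw hwp hwq).2.2.2 hz

end C5E17
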