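import Pool.Agent.Lib.MP_c5e17c_al.OA.Defs

/-!
# MP_c5e17c_al, project OA: basic facts on tame trees and the relations `≤_x`
-/

set_option autoImplicit false

namespace C5E17

section

variable {N : Type} [Lattice N] [BoundedOrder N]

@[simp] theorem lst_nil : lst ([] : List N) = ⊥ := rfl
@[simp] theorem lst_cons (c : N) (w : List N) : lst (c :: w) = c := rfl

theorem Cert.tail {V : Set (List N)} {f rk k} (h : Cert V f rk k) {c : N} {w : List N}
    (hw : c :: w ∈ V) : w ∈ V := ((h.cons c w).1 hw).1

theorem Tame.tail {V : Set (List N)} (h : Tame V) {c : N} {w : List N}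
    (hw : c :: w ∈ V) : w ∈ V := by
  obtain ⟨f, rk, k, h⟩ := h
  exact h.tail hw

theorem Tame.of_append {V : Set (List N)} (h : Tame V) {v w : List N}
    (hw : v ++ w ∈ V) : w ∈ V := by
  induction v with
  | nil => exact hw
  | cons c v ih => exact ih (h.tail hw)

theorem Cert.rk_cons {V : Set (List N)} {f rk k} (h : Cert V f rk k) {c : N} {w : List N}
    (hw : c :: w ∈ V) : rk (c :: w) ≤ rk w := by
  rcases h.desc c w hw with h | h <;> omega

theorem Cert.rk_le_nil {V : Set (List N)} {f rk k} (h : Cert V f rk k) {w : List N}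
    (hw : w ∈ V) : rk w ≤ rk [] := by
  induction w with
  | nil => exact le_refl _
  | cons c w ih => exact (h.rk_cons hw).trans (ih (h.tail hw))

theorem tame_empty : Tame (∅ : Set (List N)) :=
  ⟨fun _ => ⊤, fun _ => 0, fun _ => ⊥, ⟨by simp, by simp, by simp, by simp⟩⟩

theorem Tame.union {s t : Set (List N)} (hs : Tame s) (ht : Tame t) : Tame (s ∪ t) := by
  classical
  obtain ⟨f, rk, k, h⟩ := hs
  obtain ⟨f', rk', k', h'⟩ := ht
  refine ⟨fun w => (if w ∈ s then f w else ⊥) ⊔ (if w ∈ t then f' w else ⊥),
    fun w => (if w ∈ s then rk w + 1 else 0) + (if w ∈ t then rk' w + 1 else 0),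
    fun w => (if w ∈ s then k w else ⊤) ⊓ (if w ∈ t then k' w else ⊤), ?_, ?_, ?_, ?_⟩
  · intro c w
    simp only [Set.mem_union, h.cons, h'.cons, sup_le_iff]
    by_cases h1 : w ∈ s <;> by_cases h2 : w ∈ t <;> simp [h1, h2]
    tauto
  · intro w hw hle
    rcases hw with hw | hw
    · apply h.nle w hw
      simp only [hw, if_true] at hle
      exact (le_sup_left.trans hle).trans inf_le_left
    · apply h'.nle w hw
      simp only [hw, if_true] at hle
      exact (le_sup_right.trans hle).trans inf_le_right
  · intro w hw
    refine le_inf ?_ ?_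
    · split_ifs with h1
      · exact h.lst_le w h1
      · exact le_top
    · split_ifs with h1
      · exact h'.lst_le w h1
      · exact le_top
  · intro c w hw
    by_cases h1 : c :: w ∈ s
    · have h1' := h.tail h1
      by_cases h2 : c :: w ∈ t
      · have h2' := h'.tail h2
        simp only [h1, h1', h2, h2', if_true]
        rcases h.desc c w h1 with ha | ⟨ha, ha'⟩
        · left
          have := h'.rk_cons h2
          omega
        · rcases h'.desc c w h2 with hb | ⟨hb, hb'⟩
          · left; omega
          · right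
            exact ⟨by omega, inf_le_inf ha' hb'⟩
      · simp only [h1, h1', h2, if_true, if_false]
        by_cases h2' : w ∈ t
        · left
          simp only [h2', if_true]
          have := h.rk_cons h1
          omega
        · simp only [h2', if_false]
          rcases h.desc c w h1 with ha | ⟨ha, ha'⟩
          · left; omega
          · right
            exact ⟨by omega, inf_le_inf ha' le_rfl⟩
    · have h2 : c :: w ∈ t := hw.resolve_left h1
      have h2' := h'.tail h2
      simp only [h1, h2, h2', if_true, if_false]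
      by_cases h1' : w ∈ s
      · left
        simp only [h1', if_true]
        have := h'.rk_cons h2
        omega
      · simp only [h1', if_false]
        rcases h'.desc c w h2 with ha | ⟨ha, ha'⟩
        · left; omega
        · right
          exact ⟨by omega, inf_le_inf le_rfl ha'⟩

/-! ### the relations `≤_x` -/

theorem Le.refl (x : N) (p : Set (List N)) : Le x p p := fun _ h _ => h

theorem Le.of_subset (x : N) {q p : Set (List N)} (h : q ⊆ p) : Le x q p := fun _ hw _ => h hw

theorem Le.trans {x : N} {r q p : Set (List N)} (h1 : Le x r q) (h2 : Le x q p) : Le x r p :=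
  fun w hw hx => h2 w (h1 w hw hx) hx

theorem Le.mono {x y : N} (hxy : x ≤ y) {q p : Set (List N)} (h : Le x q p) : Le y q p :=
  fun w hw hy => h w hw (hxy.trans hy)

theorem Le.union {x : N} {q q' p : Set (List N)} (h : Le x q p) (h' : Le x q' p) :
    Le x (q ∪ q') p := by
  rintro w (hw | hw) hx
  · exact h w hw hx
  · exact h' w hw hx

theorem le_bot_iff' {q p : Set (List N)} : Le (⊥ : N) q p ↔ q ⊆ p :=
  ⟨fun h w hw => h w hw bot_le, fun h => Le.of_subset _ h⟩

theorem Le.top {q : Set (List N)} (hq : Tame q) (p : Set (List N)) : Le (⊤ : N) q p := by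
  intro w hw hx
  obtain ⟨f, rk, k, h⟩ := hq
  exact absurd ((le_top).trans (hx.trans (h.lst_le w hw))) (h.nle w hw)

/-- the weight of a node of `q` outside `p` is at most `x` if `q ≤_x p` -/
theorem Cert.weight_le {q p : Set (List N)} {f rk k} (h : Cert q f rk k) (hp : Tame p) {x : N}
    (hle : Le x q p) {w : List N} (hw : w ∈ q) (hwp : w ∉ p) : f w ≤ x := by
  by_contra hc
  exact hwp (hp.tail (hle (x :: w) ((h.cons x w).2 ⟨hw, hc⟩) (le_refl x)))

theorem Le.inf {x y : N} {q p : Set (List N)} (hq : Tame q) (hp : Tame p) (h1 : Le x q p)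
    (h2 : Le y q p) : Le (x ⊓ y) q p := by
  obtain ⟨f, rk, k, h⟩ := hq
  intro w hw hx
  by_contra hc
  exact h.nle w hw ((le_inf (h.weight_le hp h1 hw hc) (h.weight_le hp h2 hw hc)).trans
    (hx.trans (h.lst_le w hw)))

/-- there is a least `x` with `q ≤_x p` -/
theorem exists_M [Finite N] {q p : Set (List N)} (hq : Tame q) (hp : Tame p) :
    ∃ m : N, ∀ x : N, Le x q p ↔ m ≤ x := by
  classical
  have := Fintype.ofFinite N
  set X : Finset N := Finset.univ.filter (fun x => Le x q p) with hX
  refine ⟨X.inf id, fun x => ⟨fun h => Finset.inf_le (f := id) (by simp [hX, h]), fun h => ?_⟩⟩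
  refine Le.mono h ?_
  have : ∀ Y : Finset N, (∀ y ∈ Y, Le y q p) → Le (Y.inf id) q p := by
    intro Y
    induction Y using Finset.induction_on with
    | empty => intro _; simpa using Le.top hq p
    | insert a Y _ ih =>
      intro hY
      rw [Finset.inf_insert]
      exact Le.inf hq hp (hY a (Finset.mem_insert_self _ _))
        (ih fun y hy => hY y (Finset.mem_insert_of_mem hy))
  exact this X (fun y hy => by simpa [hX] using hy)

/-! ### the semilattice of tame trees -/

instance : PartialOrder (Tree N) := inferInstanceAs (PartialOrder {V : Set (List N) // Tame V})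

instance : SemilatticeSup (Tree N) where
  sup s t := ⟨s.1 ∪ t.1, s.2.union t.2⟩
  le_sup_left _ _ := Set.subset_union_left
  le_sup_right _ _ := Set.subset_union_right
  sup_le _ _ _ h1 h2 := Set.union_subset h1 h2

instance : Inhabited (Tree N) := ⟨⟨∅, tame_empty⟩⟩

theorem Tree.le_def {s t : Tree N} : s ≤ t ↔ s.1 ⊆ t.1 := Iff.rfl

theorem Tree.sup_val (s t : Tree N) : (s ⊔ t).1 = s.1 ∪ t.1 := rfl

end

/-- contractions of the semilattice of tame trees: the maps preserving unions and all relations
`≤_x` -/
structure Contr (N : Type) [Lattice N] [BoundedOrder N] where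
  toFun : Tree N → Tree N
  map_sup' : ∀ s t : Tree N, toFun (s ⊔ t) = toFun s ⊔ toFun t
  map_le' : ∀ (x : N) (s t : Tree N), Le x t.1 s.1 → Le x (toFun t).1 (toFun s).1

/-- the action of the contractions -/
def actC {N : Type} [Lattice N] [BoundedOrder N] (g : Contr N) (s : Tree N) : Tree N := g.toFun s

/-- the relation `Θ_z` -/
def Th {N : Type} [Lattice N] [BoundedOrder N] (z : N) (s t : Tree N) : Prop := Le z t.1 s.1

end C5E17
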