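import Pool.Agent.Lib.MP_c5e17c_al.OA.Contraction

/-!
# MP_c5e17c_al, project OA: classification of the closed relations on the tame trees
-/

set_option autoImplicit false

namespace C5E17

variable {N : Type} [Lattice N] [BoundedOrder N] [Finite N]

/-- the relations `Θ_z` are closed -/
theorem closed_Th (z : N) : Closed (actC (N := N)) (Th z) where
  refl _ _ h := Le.of_subset z h
  trans _ _ _ h1 h2 := Le.trans h2 h1
  sup _ _ _ h1 h2 := Le.union h1 h2
  op f s t h := f.map_le' z s t h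

/-- `Θ_z ⊆ Θ_z'` iff `z ≤ z'` -/
theorem Th_le_iff (sd : ∀ x y z : N, x ⊓ y = x ⊓ z → x ⊓ (y ⊔ z) = x ⊓ y) (z z' : N) :
    (∀ s t : Tree N, Th z s t → Th z' s t) ↔ z ≤ z' := by
  constructor
  · intro h
    obtain ⟨t, ht, htz⟩ := exists_tz sd z
    exact (htz z').1 (h ⟨∅, tame_empty⟩ ⟨t, ht⟩ ((htz z).2 le_rfl))
  · intro h s t hst
    exact Le.mono h hst

namespace Classify

/-- the contraction attached to two tame trees -/
noncomputable def ctr (sd : ∀ x y z : N, x ⊓ y = x ⊓ z → x ⊓ (y ⊔ z) = x ⊓ y)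
    (e a : Tree N) : Contr N where
  toFun t := ⟨fC e.1 a.1 t.1, tame_fC sd e.2 a.2 t.2⟩
  map_sup' s t := Subtype.ext (fC_union a.2 s.2 t.2)
  map_le' _ _ t h := fC_le a.2 t.2 h

/-- the iteration of the contractions -/
noncomputable def sq (sd : ∀ x y z : N, x ⊓ y = x ⊓ z → x ⊓ (y ⊔ z) = x ⊓ y)
    (a a₁ b₁ : Tree N) : ℕ → Tree N
  | 0 => a
  | l + 1 => (ctr sd (sq sd a a₁ b₁ l) a₁).toFun (a₁ ⊔ b₁)

theorem sq_succ_val (sd : ∀ x y z : N, x ⊓ y = x ⊓ z → x ⊓ (y ⊔ z) = x ⊓ y)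
    (a a₁ b₁ : Tree N) (l : ℕ) :
    (sq sd a a₁ b₁ (l + 1)).1 = fC (sq sd a a₁ b₁ l).1 a₁.1 (a₁.1 ∪ b₁.1) := rfl

theorem sq_subset (sd : ∀ x y z : N, x ⊓ y = x ⊓ z → x ⊓ (y ⊔ z) = x ⊓ y)
    (a a₁ b₁ : Tree N) (l : ℕ) : a.1 ⊆ (sq sd a a₁ b₁ l).1 := by
  induction l with
  | zero => exact Set.Subset.refl _
  | succ l ih =>
    rw [sq_succ_val]
    exact ih.trans (subset_fC _ _ _)

theorem sq_rel (sd : ∀ x y z : N, x ⊓ y = x ⊓ z → x ⊓ (y ⊔ z) = x ⊓ y)
    {Θ : Tree N → Tree N → Prop} (hΘ : Closed (actC (N := N)) Θ) {a₁ b₁ : Tree N}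
    (h : Θ a₁ b₁) (a : Tree N) (l : ℕ) : Θ a (sq sd a a₁ b₁ l) := by
  induction l with
  | zero => exact hΘ.refl _ _ le_rfl
  | succ l ih =>
    refine hΘ.trans _ _ _ ih ?_
    have h1 : Θ a₁ (a₁ ⊔ b₁) := hΘ.sup _ _ _ (hΘ.refl _ _ le_rfl) h
    have h2 := hΘ.op (ctr sd (sq sd a a₁ b₁ l) a₁) _ _ h1
    have h3 : actC (ctr sd (sq sd a a₁ b₁ l) a₁) a₁ = sq sd a a₁ b₁ l :=
      Subtype.ext (fC_self a₁.2 _)
    rw [h3] at h2
    exact h2

omit [Finite N] in
/-- among the nodes outside `e` of maximal rank -/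
theorem exists_bound {b e : Set (List N)} {f : List N → N} {rk : List N → ℕ} {k : List N → N}
    (hc : Cert b f rk k) (r : ℕ) (hr : ∀ v ∈ b, v ∉ e → rk v ≤ r) :
    ∀ w ∈ b, w ∉ e → rk w = r →
      ∃ w' ∈ b, w' ∉ e ∧ k w ≤ k w' ∧ ∀ c ∈ ex e w, c ≤ k w' := by
  intro w
  induction w with
  | nil =>
    intro hw hwe _
    exact ⟨[], hw, hwe, le_rfl, fun c hc => absurd hc (by simp [ex])⟩
  | cons c w ih =>
    intro hw hwe hrk
    have hlst : c ≤ k (c :: w) := hc.lst_le _ hw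
    rw [ex_cons_of_not_mem hwe]
    by_cases hwe' : w ∈ e
    · rw [ex_of_mem hwe']
      refine ⟨c :: w, hw, hwe, le_rfl, fun d hd => ?_⟩
      rw [List.mem_singleton] at hd
      rw [hd]
      exact hlst
    · have hwb := hc.tail hw
      have h1 := hc.rk_cons hw
      have h2 := hr w hwb hwe'
      obtain ⟨w', hw', hwe'', hk, hX⟩ := ih hwb hwe' (by omega)
      have h3 : k (c :: w) ≤ k w := by
        rcases hc.desc c w hw with h | ⟨_, h⟩
        · omega
        · exact h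
      refine ⟨w', hw', hwe'', h3.trans hk, fun d hd => ?_⟩
      rcases List.mem_cons.1 hd with rfl | hd
      · exact hlst.trans (h3.trans hk)
      · exact hX d hd

end Classify

/-- the main claim -/
theorem claim_of_mem (sd : ∀ x y z : N, x ⊓ y = x ⊓ z → x ⊓ (y ⊔ z) = x ⊓ y)
    {Θ : Tree N → Tree N → Prop} (hΘ : Closed (actC (N := N)) Θ) {a₁ b₁ : Tree N}
    (h : Θ a₁ b₁) {z : N} (hz : ∀ x : N, Le x b₁.1 a₁.1 → z ≤ x) {a b : Tree N}
    (hab : Th z a b) : Θ a b := by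
  obtain ⟨f, rk, k, hc⟩ := b.2
  have key : ∀ l : ℕ, ∀ w ∈ b.1, w ∉ (Classify.sq sd a a₁ b₁ l).1 → rk w + l ≤ rk [] := by
    intro l
    induction l with
    | zero =>
      intro w hw _
      exact hc.rk_le_nil hw
    | succ l ih =>
      intro w hw hwe
      rw [Classify.sq_succ_val] at hwe
      have hwe' : w ∉ (Classify.sq sd a a₁ b₁ l).1 := fun h => hwe (Or.inl h)
      by_contra hcon
      have h1 := ih w hw hwe'
      obtain ⟨w', hw', hwe'', _, hX⟩ := Classify.exists_bound hc (rk [] - l)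
        (fun v hv hve => by
          have := ih v hv hve
          omega) w hw hwe' (by omega)
      have h2 : a₁.1 ∪ b₁.1 ∈ clw (ex (Classify.sq sd a a₁ b₁ l).1 w) (idl a₁.1) := by
        by_contra h
        exact hwe (Or.inr h)
      obtain ⟨_, i, hi, hle⟩ := clw_le (isIdl_idl a₁.2) hX h2
      have h3 : z ≤ k w' := hz _ fun v hv hx => hi.2 (hle v (Or.inr hv) hx)
      have h4 : f w' ≤ z := hc.weight_le a.2 hab hw'
        fun h => hwe'' (Classify.sq_subset sd a a₁ b₁ l h)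
      exact hc.nle w' hw' (h4.trans h3)
  refine hΘ.trans _ _ _ (Classify.sq_rel sd hΘ h a (rk [] + 1)) (hΘ.refl _ _ ?_)
  intro w hw
  by_contra hwe
  have := key (rk [] + 1) w hw hwe
  omega

/-- every closed relation is one of the `Θ_z` -/
theorem classify (sd : ∀ x y z : N, x ⊓ y = x ⊓ z → x ⊓ (y ⊔ z) = x ⊓ y)
    {Θ : Tree N → Tree N → Prop} (hΘ : Closed (actC (N := N)) Θ) :
    ∃ z : N, ∀ s t : Tree N, Θ s t ↔ Th z s t := by
  classical
  have := Fintype.ofFinite N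
  have hsup : ∀ x y : N, (∀ s t : Tree N, Th x s t → Θ s t) → (∀ s t : Tree N, Th y s t → Θ s t) →
      ∀ s t : Tree N, Th (x ⊔ y) s t → Θ s t := by
    intro x y hx hy s t hst
    obtain ⟨p', hp', hsub, hgen⟩ := completeness sd s.2 t.2 (x := x) (y := y) hst
    have h1 : ∀ p : Set (List N), Relation.ReflTransGen (Step x y) s.1 p →
        ∃ hp : Tame p, Θ s ⟨p, hp⟩ := by
      intro p hp
      induction hp with
      | refl => exact ⟨s.2, hΘ.refl _ _ le_rfl⟩
      | tail _ hstep ih =>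
        obtain ⟨hq, hΘq⟩ := ih
        obtain ⟨htame, h | h⟩ := hstep
        · exact ⟨htame, hΘ.trans _ _ _ hΘq (hx _ _ h)⟩
        · exact ⟨htame, hΘ.trans _ _ _ hΘq (hy _ _ h)⟩
    obtain ⟨hp, h2⟩ := h1 p' hgen
    exact hΘ.trans _ _ _ h2 (hΘ.refl _ _ hsub)
  set Z : Finset N := Finset.univ.filter (fun z => ∀ s t : Tree N, Th z s t → Θ s t) with hZ
  have hmem : ∀ Y : Finset N, (∀ y ∈ Y, ∀ s t : Tree N, Th y s t → Θ s t) →
      ∀ s t : Tree N, Th (Y.sup id) s t → Θ s t := by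
    intro Y
    induction Y using Finset.induction_on with
    | empty =>
      intro _ s t hst
      rw [Finset.sup_empty] at hst
      exact hΘ.refl _ _ (le_bot_iff'.1 hst)
    | insert a Y _ ih =>
      intro hY
      rw [Finset.sup_insert]
      exact hsup _ _ (hY a (Finset.mem_insert_self _ _))
        (ih fun y hy => hY y (Finset.mem_insert_of_mem hy))
  refine ⟨Z.sup id, fun s t => ⟨fun hst => ?_, fun hst => ?_⟩⟩
  · obtain ⟨m, hm⟩ := exists_M t.2 s.2
    have h1 : m ∈ Z := by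
      rw [hZ, Finset.mem_filter]
      exact ⟨Finset.mem_univ _, fun a b hab =>
        claim_of_mem sd hΘ hst (fun x hx => (hm x).1 hx) hab⟩
    exact Le.mono (Finset.le_sup (f := id) h1) ((hm m).2 le_rfl)
  · refine hmem Z (fun y hy => ?_) s t hst
    rw [hZ, Finset.mem_filter] at hy
    exact hy.2

/-- the lattice `N` is isomorphic to the lattice of closed relations -/
theorem iso_closed (sd : ∀ x y z : N, x ⊓ y = x ⊓ z → x ⊓ (y ⊔ z) = x ⊓ y) :
    Nonempty (N ≃o {Θ : Tree N → Tree N → Prop // Closed (actC (N := N)) Θ}) := by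
  have hle : ∀ z z' : N, (⟨Th z, closed_Th z⟩ :
      {Θ : Tree N → Tree N → Prop // Closed (actC (N := N)) Θ}) ≤ ⟨Th z', closed_Th z'⟩ ↔
        z ≤ z' := fun z z' => Th_le_iff sd z z'
  refine ⟨{
    toEquiv := Equiv.ofBijective (fun z : N => (⟨Th z, closed_Th z⟩ :
      {Θ : Tree N → Tree N → Prop // Closed (actC (N := N)) Θ})) ⟨?_, ?_⟩
    map_rel_iff' := ?_ }⟩
  · intro z z' h
    exact le_antisymm ((hle z z').1 h.le) ((hle z' z).1 h.ge)
  · rintro ⟨Θ, hΘ⟩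
    obtain ⟨z, hz⟩ := classify sd hΘ
    refine ⟨z, Subtype.ext ?_⟩
    funext s t
    exact propext (hz s t).symm
  · intro z z'
    exact hle z z'

end C5E17
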