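import Pool.Agent.Lib.MP_c5e17c_al.OA.Complete

/-!
# MP_c5e17c_al, project OA: ideals of tame trees and their closures
-/

set_option autoImplicit false

namespace C5E17

variable {N : Type} [Lattice N] [BoundedOrder N]

theorem isIdl_idl {a : Set (List N)} (ha : Tame a) : IsIdl (idl a) where
  tame := fun _ ht => ht.1
  ne := ⟨a, ha, subset_rfl⟩
  down := fun _ _ ht hts hs => ⟨ht, hts.trans hs.2⟩
  union := fun _ ht _ hs => ⟨ht.1.union hs.1, Set.union_subset ht.2 hs.2⟩

theorem IsIdl.cl {I : Set (Set (List N))} (hI : IsIdl I) (c : N) : IsIdl (cl c I) where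
  tame := fun _ ht => ht.1
  ne := by
    obtain ⟨i, hi⟩ := hI.ne
    exact ⟨i, hI.tame i hi, i, hi, Le.refl c i⟩
  down := by
    rintro t s ht hts ⟨_, i, hi, hle⟩
    exact ⟨ht, i, hi, (Le.of_subset c hts).trans hle⟩
  union := by
    rintro t ⟨ht, i, hi, hle⟩ s ⟨hs, j, hj, hle'⟩
    exact ⟨ht.union hs, i ∪ j, hI.union i hi j hj,
      (hle.trans (Le.of_subset c Set.subset_union_left)).union
        (hle'.trans (Le.of_subset c Set.subset_union_right))⟩

theorem IsIdl.clw {I : Set (Set (List N))} (hI : IsIdl I) (u : List N) : IsIdl (clw u I) := by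
  induction u with
  | nil => exact hI
  | cons c u ih => exact ih.cl c

theorem IsIdl.union_mem_iff {I : Set (Set (List N))} (hI : IsIdl I) {s t : Set (List N)}
    (hs : Tame s) (ht : Tame t) : s ∪ t ∈ I ↔ s ∈ I ∧ t ∈ I :=
  ⟨fun h => ⟨hI.down s _ hs Set.subset_union_left h, hI.down t _ ht Set.subset_union_right h⟩,
    fun h => hI.union s h.1 t h.2⟩

theorem subset_cl {I : Set (Set (List N))} (hI : IsIdl I) (c : N) : I ⊆ cl c I :=
  fun t ht => ⟨hI.tame t ht, t, ht, Le.refl c t⟩

theorem cl_mono {I J : Set (Set (List N))} (hIJ : I ⊆ J) {c d : N} (hcd : c ≤ d) :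
    cl c I ⊆ cl d J := by
  rintro t ⟨ht, i, hi, hle⟩
  exact ⟨ht, i, hIJ hi, hle.mono hcd⟩

theorem cl_cl {I : Set (Set (List N))} (hI : IsIdl I) (c : N) : cl c (cl c I) = cl c I := by
  apply Set.Subset.antisymm
  · rintro t ⟨ht, s, ⟨_, i, hi, hle⟩, hle'⟩
    exact ⟨ht, i, hi, hle'.trans hle⟩
  · exact subset_cl (hI.cl c) c

theorem cl_bot {I : Set (Set (List N))} (hI : IsIdl I) : cl ⊥ I = I := by
  apply Set.Subset.antisymm
  · rintro t ⟨ht, i, hi, hle⟩
    exact hI.down t i ht (le_bot_iff'.1 hle) hi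
  · exact subset_cl hI ⊥

theorem cl_inf {I : Set (Set (List N))} (hI : IsIdl I) {c d : N} {t : Set (List N)}
    (hc : t ∈ cl c I) (hd : t ∈ cl d I) : t ∈ cl (c ⊓ d) I := by
  obtain ⟨ht, i, hi, hle⟩ := hc
  obtain ⟨_, j, hj, hle'⟩ := hd
  have hij := hI.union i hi j hj
  exact ⟨ht, i ∪ j, hij, Le.inf ht (hI.tame _ hij)
    (hle.trans (Le.of_subset c Set.subset_union_left))
    (hle'.trans (Le.of_subset d Set.subset_union_right))⟩

theorem mem_cl_top {I : Set (Set (List N))} (hI : IsIdl I) {t : Set (List N)} (ht : Tame t) :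
    t ∈ cl (⊤ : N) I := by
  obtain ⟨i, hi⟩ := hI.ne
  exact ⟨ht, i, hi, Le.top ht i⟩

theorem clw_append (v u : List N) (I : Set (Set (List N))) :
    clw (v ++ u) I = clw v (clw u I) := by
  induction v with
  | nil => rfl
  | cons c v ih =>
    show cl c (clw (v ++ u) I) = cl c (clw v (clw u I))
    rw [ih]

theorem clw_mono {I J : Set (Set (List N))} (hIJ : I ⊆ J) (u : List N) :
    clw u I ⊆ clw u J := by
  induction u with
  | nil => exact hIJ
  | cons c u ih => exact cl_mono ih le_rfl

theorem clw_sublist {I : Set (Set (List N))} (hI : IsIdl I) {u v : List N}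
    (h : u.Sublist v) : clw u I ⊆ clw v I := by
  induction h with
  | slnil => exact subset_rfl
  | cons a _ ih => exact ih.trans (subset_cl (hI.clw _) a)
  | cons_cons a _ ih => exact cl_mono ih le_rfl

theorem clw_le {I : Set (Set (List N))} (hI : IsIdl I) {u : List N} {K : N}
    (h : ∀ c ∈ u, c ≤ K) : clw u I ⊆ cl K I := by
  induction u with
  | nil => exact subset_cl hI K
  | cons c u ih =>
    have h1 : clw u I ⊆ cl K I := ih fun d hd => h d (List.mem_cons_of_mem _ hd)
    have h2 : c ≤ K := h c (List.mem_cons_self ..)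
    calc clw (c :: u) I = cl c (clw u I) := rfl
      _ ⊆ cl K (cl K I) := cl_mono h1 h2
      _ = cl K I := cl_cl hI K

/-- the closure with respect to a join is the union of the closures along words -/
theorem cl_sup_words [Finite N] (sd : ∀ x y z : N, x ⊓ y = x ⊓ z → x ⊓ (y ⊔ z) = x ⊓ y)
    (X : Finset N) {I : Set (Set (List N))} (hI : IsIdl I) {t : Set (List N)}
    (ht : t ∈ cl (X.sup id) I) : ∃ v : List N, (∀ c ∈ v, c ∈ X) ∧ t ∈ clw v I := by
  classical
  induction X using Finset.induction_on generalizing I t with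
  | empty =>
    rw [Finset.sup_empty, cl_bot hI] at ht
    exact ⟨[], by simp, ht⟩
  | insert a X _ ih =>
    rw [Finset.sup_insert] at ht
    obtain ⟨htt, i, hi, hle⟩ := ht
    obtain ⟨p', hp', hsub, hst⟩ := completeness sd (hI.tame i hi) htt
      (x := a) (y := X.sup id) hle
    have key : ∀ p : Set (List N), Relation.ReflTransGen (Step a (X.sup id)) i p →
        ∃ v : List N, (∀ c ∈ v, c ∈ insert a X) ∧ p ∈ clw v I := by
      intro p hp
      induction hp with
      | refl => exact ⟨[], by simp, hi⟩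
      | tail _ hstep ih2 =>
        obtain ⟨v, hv, hpv⟩ := ih2
        obtain ⟨htame, hs | hs⟩ := hstep
        · refine ⟨a :: v, ?_, ⟨htame, _, hpv, hs⟩⟩
          intro c hc
          rcases List.mem_cons.1 hc with rfl | hc
          · exact Finset.mem_insert_self _ _
          · exact hv c hc
        · obtain ⟨v', hv', hpv'⟩ := ih (hI.clw v) (show _ ∈ cl (X.sup id) (clw v I) from
            ⟨htame, _, hpv, hs⟩)
          refine ⟨v' ++ v, ?_, ?_⟩
          · intro c hc
            rcases List.mem_append.1 hc with hc | hc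
            · exact Finset.mem_insert_of_mem (hv' c hc)
            · exact hv c hc
          · rw [clw_append]
            exact hpv'
    obtain ⟨v, hv, hpv⟩ := key p' hst
    exact ⟨v, hv, (hI.clw v).down t p' htt hsub hpv⟩

end C5E17
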