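import Pool.Agent.Lib.MP_c5e17c_al.OA.Add

/-!
# MP_c5e17c_al, project OA: completeness
-/

set_option autoImplicit false

namespace C5E17

variable {N : Type} [Lattice N] [BoundedOrder N] [Finite N]

namespace Complete

theorem step (sd : ∀ x y z : N, x ⊓ y = x ⊓ z → x ⊓ (y ⊔ z) = x ⊓ y)
    {q : Set (List N)} {f rk k} (hc : Cert q f rk k) {x y : N} :
    ∀ (n : ℕ) (p : Set (List N)), Tame p → Le (x ⊔ y) q p → (∀ w ∈ q, w ∉ p → rk w < n) →
      ∃ p' : Set (List N), Tame p' ∧ q ⊆ p' ∧ Relation.ReflTransGen (Step x y) p p' := by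
  intro n
  induction n with
  | zero =>
    intro p hp _ hr
    refine ⟨p, hp, fun w hw => ?_, Relation.ReflTransGen.refl⟩
    by_contra hwp
    exact absurd (hr w hw hwp) (Nat.not_lt_zero _)
  | succ n ih =>
    intro p hp hle hr
    have hfact : ∀ w ∈ q, w ∉ p → ¬ (x ⊔ y ≤ k w) := fun w hw hwp h =>
      hc.nle w hw ((hc.weight_le hp hle hw hwp).trans h)
    have hrk : ∀ c w, c :: w ∈ q → rk (c :: w) = n → w ∉ p → rk w = n := by
      intro c w hw hcw hwp
      have h1 := hc.rk_cons hw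
      have h2 := hr w (hc.tail hw) hwp
      omega
    set Q1 : Set (List N) := {w | w ∈ q ∧ w ∉ p ∧ rk w = n ∧ x ≤ k w} with hQ1
    obtain ⟨V1, hV1, hpV1, hQV1, hyV1⟩ := exists_add sd hp y Q1 rk k n
      (by
        intro c w hw _
        by_cases hwp : w ∈ p
        · exact Or.inl hwp
        · refine Or.inr ⟨hc.tail hw.1, hwp, hrk c w hw.1 hw.2.2.1 hwp, ?_⟩
          have h3 := hrk c w hw.1 hw.2.2.1 hwp
          have h4 : rk (c :: w) = n := hw.2.2.1
          rcases hc.desc c w hw.1 with h5 | h5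
          · omega
          · exact hw.2.2.2.trans h5.2)
      (by
        intro w hw hwp
        refine ⟨fun hy => hfact w hw.1 hwp (sup_le hw.2.2.2 hy), hc.lst_le w hw.1, ?_⟩
        exact hw.2.2.1.le)
      (by
        intro c w hw _ _ _
        exact hc.desc c w hw.1)
    set Q2 : Set (List N) := {w | w ∈ q ∧ w ∉ p ∧ rk w = n ∧ ¬ x ≤ k w} with hQ2
    obtain ⟨V2, hV2, hV12, hQV2, hxV2⟩ := exists_add sd hV1 x Q2 rk k n
      (by
        intro c w hw _
        by_cases hwV : w ∈ V1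
        · exact Or.inl hwV
        · have hwp : w ∉ p := fun h => hwV (hpV1 h)
          have h3 := hrk c w hw.1 hw.2.2.1 hwp
          refine Or.inr ⟨hc.tail hw.1, hwp, h3, fun hx => hwV (hQV1 ?_)⟩
          exact ⟨hc.tail hw.1, hwp, h3, hx⟩)
      (by
        intro w hw _
        exact ⟨hw.2.2.2, hc.lst_le w hw.1, hw.2.2.1.le⟩)
      (by
        intro c w hw _ _ _
        exact hc.desc c w hw.1)
    have hpV2 : p ⊆ V2 := hpV1.trans hV12
    obtain ⟨p', hp', hqp', hgen⟩ := ih V2 hV2 (fun w hw hx => hpV2 (hle w hw hx)) (by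
      intro w hw hwV
      have hwp : w ∉ p := fun h => hwV (hpV2 h)
      have h1 := hr w hw hwp
      have h2 : rk w ≠ n := by
        intro h
        by_cases hx : x ≤ k w
        · exact hwV (hV12 (hQV1 ⟨hw, hwp, h, hx⟩))
        · exact hwV (hQV2 ⟨hw, hwp, h, hx⟩)
      omega)
    refine ⟨p', hp', hqp', ?_⟩
    exact Relation.ReflTransGen.head ⟨hV1, Or.inr hyV1⟩
      (Relation.ReflTransGen.head ⟨hV2, Or.inl hxV2⟩ hgen)

end Complete

theorem completeness (sd : ∀ x y z : N, x ⊓ y = x ⊓ z → x ⊓ (y ⊔ z) = x ⊓ y)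
    {p q : Set (List N)} (hp : Tame p) (hq : Tame q) {x y : N} (h : Le (x ⊔ y) q p) :
    ∃ p' : Set (List N), Tame p' ∧ q ⊆ p' ∧ Relation.ReflTransGen (Step x y) p p' := by
  obtain ⟨f, rk, k, hc⟩ := hq
  refine Complete.step sd hc (rk [] + 1) p hp h fun w hw _ => ?_
  have h1 := hc.rk_le_nil hw
  omega

/-- for every `z ≠ ⊥` there is a tame tree `t` with `t ≤_y ∅` iff `z ≤ y` -/
theorem exists_tz (sd : ∀ x y z : N, x ⊓ y = x ⊓ z → x ⊓ (y ⊔ z) = x ⊓ y) (z : N) :
    ∃ t : Set (List N), Tame t ∧ ∀ y : N, Le y t ∅ ↔ z ≤ y := by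
  by_cases hz : z = ⊥
  · subst hz
    exact ⟨∅, tame_empty, fun y => ⟨fun _ => bot_le, fun _ => Le.refl y ∅⟩⟩
  · have hz' : ¬ z ≤ ⊥ := fun h => hz (le_bot_iff.1 h)
    set Q : Set (List N) := {w | w = [] ∨ ∃ c, ¬ z ≤ c ∧ w = [c]} with hQ
    obtain ⟨V, hV, _, hQV, hle⟩ := exists_add sd (tame_empty (N := N)) z Q
      (fun w => 1 - w.length) lst 1
      (by
        intro c w hw _
        rcases hw with hw | ⟨d, _, hw⟩
        · exact absurd hw (by simp)
        · rw [List.cons.injEq] at hw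
          exact Or.inr (Or.inl hw.2))
      (by
        intro w hw _
        rcases hw with rfl | ⟨d, hd, rfl⟩
        · exact ⟨hz', le_rfl, by simp⟩
        · exact ⟨hd, le_rfl, by simp⟩)
      (by
        intro c w hw _ _ _
        rcases hw with hw | ⟨d, _, hw⟩
        · exact absurd hw (by simp)
        · rw [List.cons.injEq] at hw
          left
          rw [hw.2]
          simp)
    refine ⟨V, hV, fun y => ⟨fun h => ?_, fun h => Le.mono h hle⟩⟩
    by_contra hzy
    exact h [y] (hQV (Or.inr ⟨y, hzy, rfl⟩)) le_rfl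

end C5E17
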