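import Pool.Agent.Lib.MP_c5e17c_al.OA.WTree

/-!
# MP_c5e17c_al, project OA: the contractions `fC e a`
-/

set_option autoImplicit false

namespace C5E17

variable {N : Type} [Lattice N] [BoundedOrder N]

theorem ex_of_mem {e : Set (List N)} {w : List N} (hw : w ∈ e) : ex e w = [] := by
  cases w with
  | nil => rfl
  | cons c w => simp only [ex, if_pos hw]

theorem ex_cons_of_not_mem {e : Set (List N)} {c : N} {w : List N} (hw : c :: w ∉ e) :
    ex e (c :: w) = c :: ex e w := by
  simp only [ex, if_neg hw]

theorem subset_fC (e a t : Set (List N)) : e ⊆ fC e a t := fun _ hw => Or.inl hw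

theorem fC_self {a : Set (List N)} (ha : Tame a) (e : Set (List N)) : fC e a a = e := by
  refine Set.Subset.antisymm ?_ (subset_fC e a a)
  rintro w (hw | hw)
  · exact hw
  · exfalso
    apply hw
    have h : a ∈ clw [] (idl a) := ⟨ha, Set.Subset.refl a⟩
    exact clw_sublist (isIdl_idl ha) (List.nil_sublist _) h

theorem fC_union {e a s t : Set (List N)} (ha : Tame a) (hs : Tame s) (ht : Tame t) :
    fC e a (s ∪ t) = fC e a s ∪ fC e a t := by
  ext w
  have h := ((isIdl_idl ha).clw (ex e w)).union_mem_iff hs ht
  simp only [fC, Set.mem_setOf_eq, Set.mem_union]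
  rw [h]
  tauto

theorem fC_le {e a s t : Set (List N)} (ha : Tame a) (ht : Tame t) {x : N} (h : Le x t s) :
    Le x (fC e a t) (fC e a s) := by
  rintro w hw hx
  rcases hw with hw | hw
  · exact Or.inl hw
  · by_cases hwe : w ∈ e
    · exact Or.inl hwe
    · right
      intro hs
      apply hw
      cases w with
      | nil =>
        have hs' : Tame s ∧ s ⊆ a := hs
        have hx' : x ≤ ⊥ := hx
        exact ⟨ht, fun v hv => hs'.2 (h v hv (hx'.trans bot_le))⟩
      | cons c w =>
        rw [ex_cons_of_not_mem hwe] at hs ⊢
        obtain ⟨_, i, hi, hle⟩ := hs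
        have hx' : x ≤ c := hx
        exact ⟨ht, i, hi, (h.mono hx').trans hle⟩

open Classical in
theorem tame_fC [Finite N] (sd : ∀ x y z : N, x ⊓ y = x ⊓ z → x ⊓ (y ⊔ z) = x ⊓ y)
    {e a t : Set (List N)} (he : Tame e) (ha : Tame a) (ht : Tame t) : Tame (fC e a t) := by
  have hte := he
  obtain ⟨f, rk, k, hC⟩ := he
  obtain ⟨g, rk', k', hW, hg⟩ := exists_wtree sd (isIdl_idl ha) ht
  refine ⟨fun w => if w ∈ e then f w ⊔ g [] else g (ex e w),
    fun w => if w ∈ e then rk w + rk' [] + 1 else rk' (ex e w),
    fun w => if w ∈ e then k w else k' (ex e w), ?_, ?_, ?_, ?_⟩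
  · intro c w
    by_cases hw : w ∈ e
    · have hwf : w ∈ fC e a t := Or.inl hw
      simp only [hw, if_true]
      by_cases hcw : c :: w ∈ e
      · have h1 : ¬ f w ≤ c := ((hC.cons c w).1 hcw).2
        refine ⟨fun _ => ⟨hwf, fun h => h1 (le_sup_left.trans h)⟩, fun _ => Or.inl hcw⟩
      · have h1 : f w ≤ c := by
          by_contra h
          exact hcw ((hC.cons c w).2 ⟨hw, h⟩)
        have h2 : c :: w ∈ fC e a t ↔ t ∉ clw [c] (idl a) := by
          have h3 : ex e (c :: w) = [c] := by rw [ex_cons_of_not_mem hcw, ex_of_mem hw]
          constructor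
          · rintro (h | h)
            · exact absurd h hcw
            · rwa [h3] at h
          · intro h
            right
            rwa [h3]
        rw [h2, hg [] c]
        constructor
        · exact fun h => ⟨hwf, fun h' => h (le_sup_right.trans h')⟩
        · exact fun h h' => h.2 (sup_le h1 h')
    · have hcw : c :: w ∉ e := fun h => hw (hte.tail h)
      have h1 : c :: w ∈ fC e a t ↔ c :: ex e w ∈ {u : List N | t ∉ clw u (idl a)} := by
        constructor
        · rintro (h | h)
          · exact absurd h hcw
          · rwa [ex_cons_of_not_mem hcw] at h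
        · intro h
          right
          rwa [ex_cons_of_not_mem hcw]
      have h2 : w ∈ fC e a t ↔ ex e w ∈ {u : List N | t ∉ clw u (idl a)} := by
        constructor
        · rintro (h | h)
          · exact absurd h hw
          · exact h
        · exact fun h => Or.inr h
      simp only [hw, if_false]
      rw [h1, h2, hW.cons]
  · intro w hw
    by_cases hwe : w ∈ e
    · simp only [hwe, if_true]
      exact fun h => hC.nle w hwe (le_sup_left.trans h)
    · simp only [hwe, if_false]
      exact hW.nle _ (hw.resolve_left hwe)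
  · intro w hw
    by_cases hwe : w ∈ e
    · simp only [hwe, if_true]
      exact hC.lst_le w hwe
    · simp only [hwe, if_false]
      have h1 := hW.lst_le _ (hw.resolve_left hwe)
      refine le_trans (le_of_eq ?_) h1
      cases w with
      | nil => rfl
      | cons c w =>
        rw [ex_cons_of_not_mem hwe]
        rfl
  · intro c w hcw
    by_cases hw : w ∈ e
    · by_cases hcwe : c :: w ∈ e
      · simp only [hw, hcwe, if_true]
        rcases hC.desc c w hcwe with h | ⟨h, h'⟩
        · left
          omega
        · right
          exact ⟨by omega, h'⟩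
      · simp only [hw, hcwe, if_true, if_false]
        left
        have h1 : ex e (c :: w) ∈ {u : List N | t ∉ clw u (idl a)} := hcw.resolve_left hcwe
        have h2 := hW.rk_le_nil h1
        omega
    · have hcwe : c :: w ∉ e := fun h => hw (hte.tail h)
      simp only [hw, hcwe, if_false]
      have h1 : ex e (c :: w) ∈ {u : List N | t ∉ clw u (idl a)} := hcw.resolve_left hcwe
      rw [ex_cons_of_not_mem hcwe] at h1 ⊢
      exact hW.desc c (ex e w) h1

end C5E17
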