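import Mathlib

/-!
# MP_c5e17c_al, project OA (one atom): definitions

Part 1: tame trees over a finite lattice `N`, the relations `≤_x`, ideals and closures.
Part 2: first-order structures, quasi-identities, lattices of quasivarieties.
-/

set_option autoImplicit false

namespace C5E17

/-! ## Part 1: trees -/

section Trees

variable {N : Type} [Lattice N] [BoundedOrder N]

/-- A word is a list of letters in `N`; its head is the LAST letter. `lst w` is the last letter,
and `⊥` for the empty word. -/
def lst (w : List N) : N := w.headD ⊥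

/-- A certificate of a tree `V`: the weight `f`, the rank `rk`, the bound `k`. -/
structure Cert (V : Set (List N)) (f : List N → N) (rk : List N → ℕ) (k : List N → N) :
    Prop where
  cons : ∀ c w, c :: w ∈ V ↔ w ∈ V ∧ ¬ f w ≤ c
  nle : ∀ w ∈ V, ¬ f w ≤ k w
  lst_le : ∀ w ∈ V, lst w ≤ k w
  desc : ∀ c w, c :: w ∈ V → rk (c :: w) < rk w ∨ (rk (c :: w) = rk w ∧ k (c :: w) ≤ k w)

/-- tame trees -/
def Tame (V : Set (List N)) : Prop := ∃ f rk k, Cert V f rk k

/-- the relation `q ≤_x p` -/
def Le (x : N) (q p : Set (List N)) : Prop := ∀ w ∈ q, x ≤ lst w → w ∈ p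

/-- one step: `b ≤_x a` or `b ≤_y a` with `b` tame -/
def Step (x y : N) (a b : Set (List N)) : Prop := Tame b ∧ (Le x b a ∨ Le y b a)

/-- ideals of tame trees -/
structure IsIdl (I : Set (Set (List N))) : Prop where
  tame : ∀ t ∈ I, Tame t
  ne : I.Nonempty
  down : ∀ t s, Tame t → t ⊆ s → s ∈ I → t ∈ I
  union : ∀ t ∈ I, ∀ s ∈ I, t ∪ s ∈ I

/-- the closure of `I` with respect to `≤_c` -/
def cl (c : N) (I : Set (Set (List N))) : Set (Set (List N)) :=
  {t | Tame t ∧ ∃ i ∈ I, Le c t i}

/-- the iterated closure along a word (the head of the word is applied last) -/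
def clw : List N → Set (Set (List N)) → Set (Set (List N))
  | [], I => I
  | c :: u, I => cl c (clw u I)

/-- the principal ideal -/
def idl (a : Set (List N)) : Set (Set (List N)) := {t | Tame t ∧ t ⊆ a}

open Classical in
/-- the part of the word `w` after the first exit from `e`, including the exit letter -/
noncomputable def ex (e : Set (List N)) : List N → List N
  | [] => []
  | c :: w => if c :: w ∈ e then [] else c :: ex e w

/-- the contraction attached to `e` and `a` -/
def fC (e a t : Set (List N)) : Set (List N) := {w | w ∈ e ∨ t ∉ clw (ex e w) (idl a)}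

variable (N) in
/-- the type of tame trees -/
def Tree : Type := {V : Set (List N) // Tame V}

end Trees

/-! ## Part 2: quasivarieties -/

section Quasi

open FirstOrder

/-- atomic formulas in the variables `ℕ` -/
inductive Atom (L : FirstOrder.Language.{0, 0}) : Type
  | eq (s t : L.Term ℕ) : Atom L
  | rel {n : ℕ} (R : L.Relations n) (ts : Fin n → L.Term ℕ) : Atom L

/-- a (nonempty) structure of signature `L` -/
structure Str (L : FirstOrder.Language.{0, 0}) where
  carrier : Type
  [str : L.Structure carrier]
  [ne : Nonempty carrier]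

attribute [instance] Str.str Str.ne

variable {L : FirstOrder.Language.{0, 0}}

/-- truth of an atomic formula at an assignment -/
def Atom.Holds (A : Str L) (v : ℕ → A.carrier) : Atom L → Prop
  | .eq s t => s.realize v = t.realize v
  | .rel R ts => FirstOrder.Language.Structure.RelMap R (fun i => (ts i).realize v)

/-- a quasi-identity: a finite list of premises (atomic formulas) and a conclusion (an atomic
formula); all variables are universally quantified -/
structure QId (L : FirstOrder.Language.{0, 0}) : Type where
  prem : List (Atom L)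
  concl : Atom L

/-- truth of a quasi-identity in a structure -/
def QId.Holds (φ : QId L) (A : Str L) : Prop :=
  ∀ v : ℕ → A.carrier, (∀ a ∈ φ.prem, a.Holds A v) → φ.concl.Holds A v

/-- the class of all structures satisfying a set of quasi-identities -/
def Mod (Q : Set (QId L)) : Set (Str L) := {A | ∀ φ ∈ Q, φ.Holds A}

/-- quasivarieties: the classes of structures defined by quasi-identities -/
def IsQV (C : Set (Str L)) : Prop := ∃ Q : Set (QId L), C = Mod Q

/-- the ordered set of all subquasivarieties of `K` (inclusion of classes) -/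
def SubQ (K : Set (Str L)) : Type 1 := {C : Set (Str L) // IsQV C ∧ C ⊆ K}

instance (K : Set (Str L)) : PartialOrder (SubQ K) :=
  inferInstanceAs (PartialOrder {C : Set (Str L) // IsQV C ∧ C ⊆ K})

/-- `α` is (isomorphic to) the lattice of all subquasivarieties of some quasivariety `K` of
structures of some signature -/
def IsLQ (α : Type) [LE α] : Prop :=
  ∃ (L : FirstOrder.Language.{0, 0}) (K : Set (Str L)), IsQV K ∧ Nonempty (α ≃o SubQ K)

end Quasi

/-! ## Part 3: the quasivariety attached to a semilattice with operators -/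

section KK

open FirstOrder

/-- the unary function symbols: one symbol `op f` for every `f : F`, and two more symbols -/
inductive Sym (F : Type) : Type
  | op (f : F) : Sym F
  | o : Sym F
  | k : Sym F

/-- function symbols: all unary -/
inductive FunS (F : Type) : ℕ → Type
  | mk (a : Sym F) : FunS F 1

/-- relation symbols: all unary, one predicate `P s` for every `s : S` -/
inductive RelS (S : Type) : ℕ → Type
  | P (s : S) : RelS S 1

/-- the signature of `K` -/
def LK (S F : Type) : FirstOrder.Language.{0, 0} := ⟨FunS F, RelS S⟩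

/-- the function symbol `a` -/
def fsym (S : Type) {F : Type} (a : Sym F) : (LK S F).Functions 1 := FunS.mk a

/-- the predicate symbol `P_s` -/
def psym {S : Type} (F : Type) (s : S) : (LK S F).Relations 1 := RelS.P s

variable {S F : Type}

/-- the term `a(t)` -/
def tmA (a : Sym F) (t : (LK S F).Term ℕ) : (LK S F).Term ℕ :=
  FirstOrder.Language.Term.func (fsym S a) (fun _ => t)

/-- the term `w(t)` for a word of symbols (the head is the outermost symbol) -/
def tmW : List (Sym F) → (LK S F).Term ℕ → (LK S F).Term ℕ
  | [], t => t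
  | a :: w, t => tmA a (tmW w t)

/-- the variable `x_i` as a term -/
def vr (i : ℕ) : (LK S F).Term ℕ := FirstOrder.Language.Term.var i

/-- the atomic formula `P_s(t)` -/
def atP (s : S) (t : (LK S F).Term ℕ) : Atom (LK S F) :=
  Atom.rel (psym F s) (fun _ => t)

/-- the axioms of `K` -/
inductive AxK [SemilatticeSup S] (act : F → S → S) : QId (LK S F) → Prop
  | mono (s t : S) (h : t ≤ s) : AxK act ⟨[atP s (vr 0)], atP t (vr 0)⟩
  | sup (s t : S) : AxK act ⟨[atP s (vr 0), atP t (vr 0)], atP (s ⊔ t) (vr 0)⟩
  | op1 (f : F) (s : S) : AxK act ⟨[atP s (tmA (.op f) (vr 0))], atP (act f s) (vr 0)⟩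
  | op2 (f : F) (s : S) : AxK act ⟨[atP (act f s) (vr 0)], atP s (tmA (.op f) (vr 0))⟩
  | o (s : S) : AxK act ⟨[], atP s (tmA .o (vr 0))⟩
  | k (s : S) : AxK act ⟨[atP s (tmA .k (vr 0))], Atom.eq (vr 1) (vr 2)⟩
  | inj (a : Sym F) : AxK act ⟨[Atom.eq (tmA a (vr 0)) (tmA a (vr 1))], Atom.eq (vr 0) (vr 1)⟩
  | disj (a b : Sym F) (h : a ≠ b) :
      AxK act ⟨[Atom.eq (tmA a (vr 0)) (tmA b (vr 1))], Atom.eq (vr 2) (vr 3)⟩
  | acyc (w : List (Sym F)) (h : w ≠ []) :
      AxK act ⟨[Atom.eq (tmW w (vr 0)) (vr 0)], Atom.eq (vr 1) (vr 2)⟩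

/-- the quasivariety `K` -/
def KK [SemilatticeSup S] (act : F → S → S) : Set (Str (LK S F)) := Mod {φ | AxK act φ}

/-- closed relations on a semilattice with operators -/
structure Closed [SemilatticeSup S] (act : F → S → S) (Θ : S → S → Prop) : Prop where
  refl : ∀ s t, t ≤ s → Θ s t
  trans : ∀ r s t, Θ r s → Θ s t → Θ r t
  sup : ∀ s t t', Θ s t → Θ s t' → Θ s (t ⊔ t')
  op : ∀ f s t, Θ s t → Θ (act f s) (act f t)

end KK

end C5E17
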