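import Pool.Agent.Lib.MP_c5e17c_al.OA.Basic

/-!
# MP_c5e17c_al, project OA: the functions `δ` and `κ` on a finite meet-semidistributive lattice
-/

set_option autoImplicit false

namespace C5E17

/-- The upper covers-like set `U_j`. -/
def Delta.U {N : Type} [Lattice N] (j : N) : Set N :=
  {u | (∀ h, h < j → h ≤ u) ∧ ¬ j ≤ u}

theorem Delta.inf_eq {N : Type} [Lattice N] {j u v : N} (hu : u ∈ Delta.U j)
    (hv : v ∈ Delta.U j) : j ⊓ u = j ⊓ v := by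
  have h1 : ∀ a b : N, a ∈ Delta.U j → b ∈ Delta.U j → j ⊓ a ≤ j ⊓ b := by
    intro a b ha hb
    refine le_inf inf_le_left (hb.1 _ (lt_of_le_of_ne inf_le_left fun h => ha.2 ?_))
    rw [← h]
    exact inf_le_right
  exact le_antisymm (h1 u v hu hv) (h1 v u hv hu)

theorem Delta.sup_mem {N : Type} [Lattice N]
    (sd : ∀ x y z : N, x ⊓ y = x ⊓ z → x ⊓ (y ⊔ z) = x ⊓ y) {j u v : N}
    (hu : u ∈ Delta.U j) (hv : v ∈ Delta.U j) : u ⊔ v ∈ Delta.U j := by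
  refine ⟨fun h hh => (hu.1 h hh).trans le_sup_left, fun h => hu.2 ?_⟩
  have h2 := sd j u v (Delta.inf_eq hu hv)
  rw [inf_eq_left.2 h] at h2
  exact inf_eq_left.1 h2.symm

theorem Delta.exists_kappa {N : Type} [Lattice N] [BoundedOrder N] [Finite N]
    (sd : ∀ x y z : N, x ⊓ y = x ⊓ z → x ⊓ (y ⊔ z) = x ⊓ y) (j : N) :
    ∃ k : N, ∀ c ∈ Delta.U j, c ≤ k ∧ ¬ j ≤ k := by
  classical
  by_cases hne : (Delta.U j).Nonempty
  · obtain ⟨m, hm⟩ := (Set.toFinite (Delta.U j)).exists_maximal hne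
    refine ⟨m, fun c hc => ⟨?_, hm.prop.2⟩⟩
    have h1 := Delta.sup_mem sd hm.prop hc
    exact le_sup_right.trans (hm.le_of_ge h1 le_sup_left)
  · exact ⟨⊥, fun c hc => absurd ⟨c, hc⟩ hne⟩

theorem exists_delta {N : Type} [Lattice N] [BoundedOrder N] [Finite N]
    (sd : ∀ x y z : N, x ⊓ y = x ⊓ z → x ⊓ (y ⊔ z) = x ⊓ y) :
    ∃ (δ : N → N → N) (κ : N → N), ∀ g c : N, ¬ g ≤ c →
      δ g c ≤ g ∧ ¬ δ g c ≤ c ∧ c ≤ κ (δ g c) ∧ ¬ δ g c ≤ κ (δ g c) := by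
  classical
  choose κ hκ using Delta.exists_kappa sd
  have hδ : ∀ g c : N, ∃ d : N, ¬ g ≤ c → (d ≤ g ∧ ¬ d ≤ c ∧ c ∈ Delta.U d) := by
    intro g c
    by_cases hgc : g ≤ c
    · exact ⟨g, fun h => absurd hgc h⟩
    · obtain ⟨m, hm⟩ := (Set.toFinite {j : N | j ≤ g ∧ ¬ j ≤ c}).exists_minimal
        ⟨g, le_rfl, hgc⟩
      refine ⟨m, fun _ => ⟨hm.prop.1, hm.prop.2, fun h hh => ?_, hm.prop.2⟩⟩
      by_contra hc
      exact absurd (hm.le_of_le (show h ∈ {j : N | j ≤ g ∧ ¬ j ≤ c} from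
        ⟨hh.le.trans hm.prop.1, hc⟩) hh.le) (not_le_of_gt hh)
  choose δ hδ using hδ
  refine ⟨δ, κ, fun g c h => ?_⟩
  obtain ⟨h1, h2, h3⟩ := hδ g c h
  exact ⟨h1, h2, (hκ _ c h3).1, (hκ _ c h3).2⟩

end C5E17
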