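import Mathlib

/-!
# MP_c5e17c_al, project OA: a finiteness consequence of Higman's lemma
-/

set_option autoImplicit false

namespace C5E17

namespace Higman

/-- Higman's lemma over a finite alphabet. -/
theorem wqo {N : Type} [Finite N] (U : Set (List N)) :
    U.PartiallyWellOrderedOn (fun a b : List N => a.Sublist b) := by
  have h := Set.PartiallyWellOrderedOn.partiallyWellOrderedOn_sublistForall₂ (α := N)
    (fun a b : N => a = b) (s := Set.univ) (Set.finite_univ.partiallyWellOrderedOn)
  have h2 : U ⊆ {l : List N | ∀ x, x ∈ l → x ∈ (Set.univ : Set N)} := by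
    intro l _ x _
    exact Set.mem_univ x
  have h3 := h.mono h2
  rw [Set.partiallyWellOrderedOn_iff_exists_lt] at h3 ⊢
  intro f hf
  obtain ⟨m, n, hmn, h4⟩ := h3 f hf
  refine ⟨m, n, hmn, ?_⟩
  rw [List.sublistForall₂_iff] at h4
  obtain ⟨l, h5, h6⟩ := h4
  rw [List.forall₂_eq_eq_eq] at h5
  rw [h5]
  exact h6

/-- Every set of words has a finite basis for the subword order. -/
theorem basis {N : Type} [Finite N] (U : Set (List N)) :
    ∃ B : Set (List N), B.Finite ∧ B ⊆ U ∧ ∀ u ∈ U, ∃ b ∈ B, b.Sublist u := by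
  refine ⟨{b | b ∈ U ∧ ∀ c ∈ U, c.Sublist b → c = b}, ?_, fun b hb => hb.1, ?_⟩
  · refine IsAntichain.finite_of_partiallyWellOrderedOn
      (r := fun a b : List N => a.Sublist b) ?_ (wqo _)
    intro a ha b hb hab h
    exact hab (hb.2 a ha.1 h)
  · intro u
    induction h : u.length using Nat.strong_induction_on generalizing u with
    | _ n ih =>
      intro hu
      by_cases hm : ∀ c ∈ U, c.Sublist u → c = u
      · exact ⟨u, ⟨hu, hm⟩, List.Sublist.refl u⟩
      · push Not at hm
        obtain ⟨c, hc, hcu, hne⟩ := hm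
        have hlt : c.length < u.length :=
          lt_of_le_of_ne hcu.length_le (fun he => hne (hcu.eq_of_length he))
        obtain ⟨b, hb, hbc⟩ := ih c.length (h ▸ hlt) c rfl hc
        exact ⟨b, hb, hbc.trans hcu⟩

/-- A finite set of words has finitely many splittings. -/
theorem finite_split {N : Type} {B : Set (List N)} (hB : B.Finite) :
    {p : List N × List N | p.1 ++ p.2 ∈ B}.Finite := by
  have h1 : {p : List N × List N | p.1 ++ p.2 ∈ B} ⊆
      ⋃ b ∈ B, (fun i : ℕ => (b.take i, b.drop i)) '' Set.Iic b.length := by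
    rintro ⟨x, y⟩ hp
    rw [Set.mem_iUnion₂]
    refine ⟨x ++ y, hp, x.length, ?_, ?_⟩
    · rw [Set.mem_Iic, List.length_append]
      exact Nat.le_add_right _ _
    · simp
  exact (hB.biUnion fun b _ => (Set.finite_Iic b.length).image _).subset h1

end Higman

/-- a set of words closed under subwords has finitely many left quotients -/
theorem range_quotient_finite {N : Type} [Finite N] (W : Set (List N))
    (hW : ∀ u v : List N, u.Sublist v → v ∈ W → u ∈ W) :
    (Set.range (fun u : List N => {v : List N | v ++ u ∈ W})).Finite := by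
  obtain ⟨B, hBf, hBU, hB⟩ := Higman.basis (Wᶜ)
  have hD := Higman.finite_split hBf
  have hkey : ∀ u v : List N, v ++ u ∈ W ↔
      ¬ ∃ p ∈ {p : List N × List N | p.1 ++ p.2 ∈ B ∧ p.2.Sublist u}, p.1.Sublist v := by
    intro u v
    constructor
    · rintro h ⟨p, ⟨h1, h2⟩, h3⟩
      exact hBU h1 (hW _ _ (List.Sublist.append h3 h2) h)
    · intro h
      by_contra hc
      obtain ⟨b, hb, hbv⟩ := hB (v ++ u) hc
      obtain ⟨x, y, hxy, hx, hy⟩ := List.sublist_append_iff.mp hbv
      exact h ⟨(x, y), ⟨by rw [← hxy]; exact hb, hy⟩, hx⟩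
  have hsub : Set.range (fun u : List N => {v : List N | v ++ u ∈ W}) ⊆
      (fun S : Set (List N × List N) => {v : List N | ¬ ∃ p ∈ S, p.1.Sublist v}) ''
        {S | S ⊆ {p : List N × List N | p.1 ++ p.2 ∈ B}} := by
    rintro _ ⟨u, rfl⟩
    refine ⟨{p : List N × List N | p.1 ++ p.2 ∈ B ∧ p.2.Sublist u}, fun p hp => hp.1, ?_⟩
    ext v
    exact (hkey u v).symm
  exact (hD.finite_subsets.image _).subset hsub

end C5E17
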