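import Pool.Agent.Lib.MP_c5e17c_al.OA.Defs

/-!
# MP_c5e17c_al, project OA: semantic form of the quasivariety `KK`
-/

set_option autoImplicit false

namespace C5E17

variable {S F : Type}

/-- the function `a` of the structure `A` -/
def ap (A : Str (LK S F)) (a : Sym F) (x : A.carrier) : A.carrier :=
  FirstOrder.Language.Structure.funMap (fsym S a) (fun _ => x)

/-- the action of the words (the head is applied last) -/
def apW (A : Str (LK S F)) : List (Sym F) → A.carrier → A.carrier
  | [], x => x
  | a :: w, x => ap A a (apW A w x)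

/-- the predicate `P_s` of the structure `A` -/
def pr (A : Str (LK S F)) (s : S) (x : A.carrier) : Prop :=
  FirstOrder.Language.Structure.RelMap (psym F s) (fun _ => x)

/-- the axioms of `KK`, semantically -/
structure KAx [SemilatticeSup S] (act : F → S → S) (A : Str (LK S F)) : Prop where
  mono : ∀ s t, t ≤ s → ∀ x, pr A s x → pr A t x
  sup : ∀ s t x, pr A s x → pr A t x → pr A (s ⊔ t) x
  op : ∀ f s x, pr A s (ap A (.op f) x) ↔ pr A (act f s) x
  o : ∀ s x, pr A s (ap A .o x)
  k : ∀ s x, pr A s (ap A .k x) → Subsingleton A.carrier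
  inj : ∀ a, Function.Injective (ap A a)
  disj : ∀ a b, a ≠ b → ∀ x y, ap A a x = ap A b y → Subsingleton A.carrier
  acyc : ∀ w, w ≠ [] → ∀ x, apW A w x = x → Subsingleton A.carrier

/-- values of the evaluation -/
inductive Ev (S : Type) : Type
  | st (s : S) : Ev S
  | tt : Ev S
  | ff : Ev S

/-- evaluation of `P_s` at `w(x)` -/
def ev (act : F → S → S) : List (Sym F) → S → Ev S
  | [], s => .st s
  | .op f :: w, s => ev act w (act f s)
  | .o :: _, _ => .tt
  | .k :: _, _ => .ff

/-- truth of a value at an element `x` of `A` -/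
def Ev.true (A : Str (LK S F)) (x : A.carrier) : Ev S → Prop
  | .st s => pr A s x
  | .tt => True
  | .ff => False

end C5E17
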