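import Pool.Agent.Lib.MP_c5e17c_al.OA.QRep

/-!
# MP_c5e17c_al, project OA: the free model on one element of a closed relation
-/

set_option autoImplicit false

namespace C5E17

namespace QModel

variable {S F : Type}

/-- truth of `P_s` at the word `w` -/
def Qp (act : F → S → S) (Θ : S → S → Prop) (s₀ : S) (s : S) (w : List (Sym F)) : Prop :=
  match ev act w s with
  | .st s' => Θ s₀ s'
  | .tt => True
  | .ff => False

/-- the functions -/
def funM : {n : ℕ} → FunS F n → (Fin n → List (Sym F)) → List (Sym F)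
  | _, .mk a, xs => a :: xs 0

/-- the relations -/
def relM (Q : S → List (Sym F) → Prop) : {n : ℕ} → RelS S n → (Fin n → List (Sym F)) → Prop
  | _, .P s, xs => Q s (xs 0)

/-- the structure on the words -/
def strM (Q : S → List (Sym F) → Prop) : Str (LK S F) :=
  { carrier := List (Sym F)
    str := { funMap := fun {_} a xs => funM a xs, RelMap := fun {_} R xs => relM Q R xs }
    ne := ⟨[]⟩ }

theorem ap_eq (Q : S → List (Sym F) → Prop) (a : Sym F) (w : List (Sym F)) :
    ap (strM Q) a w = a :: w := rfl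

theorem apW_eq' (Q : S → List (Sym F) → Prop) (u w : List (Sym F)) :
    apW (strM Q) u w = u ++ w := by
  induction u with
  | nil => rfl
  | cons a u ih =>
    show ap (strM Q) a (apW (strM Q) u w) = _
    rw [ih, ap_eq]
    rfl

theorem pr_eq (Q : S → List (Sym F) → Prop) (s : S) (w : List (Sym F)) :
    pr (strM Q) s w ↔ Q s w := Iff.rfl

theorem ev_rel {act : F → S → S} {R : S → S → Prop} (hR : ∀ f s t, R s t → R (act f s) (act f t)) :
    ∀ (w : List (Sym F)) (s t : S), R s t →
      (∃ s' t', ev act w s = .st s' ∧ ev act w t = .st t' ∧ R s' t') ∨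
      (ev act w s = .tt ∧ ev act w t = .tt) ∨ (ev act w s = .ff ∧ ev act w t = .ff)
  | [], s, t, h => Or.inl ⟨s, t, rfl, rfl, h⟩
  | .op f :: w, s, t, h => ev_rel hR w (act f s) (act f t) (hR f s t h)
  | .o :: _, _, _, _ => Or.inr (Or.inl ⟨rfl, rfl⟩)
  | .k :: _, _, _, _ => Or.inr (Or.inr ⟨rfl, rfl⟩)

theorem ev_sup [SemilatticeSup S] {act : F → S → S}
    (hact : ∀ f s t, act f (s ⊔ t) = act f s ⊔ act f t) :
    ∀ (w : List (Sym F)) (s t : S),
      (∃ s' t', ev act w s = .st s' ∧ ev act w t = .st t' ∧ ev act w (s ⊔ t) = .st (s' ⊔ t')) ∨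
      (ev act w s = .tt ∧ ev act w (s ⊔ t) = .tt) ∨
      (ev act w s = .ff ∧ ev act w (s ⊔ t) = .ff)
  | [], s, t => Or.inl ⟨s, t, rfl, rfl, rfl⟩
  | .op f :: w, s, t => by
    have h := ev_sup hact w (act f s) (act f t)
    rw [← hact] at h
    exact h
  | .o :: _, _, _ => Or.inr (Or.inl ⟨rfl, rfl⟩)
  | .k :: _, _, _ => Or.inr (Or.inr ⟨rfl, rfl⟩)

end QModel

open QModel in
theorem exists_model {S F : Type} [SemilatticeSup S] {act : F → S → S}
    (hact : ∀ f s t, act f (s ⊔ t) = act f s ⊔ act f t)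
    {Θ : S → S → Prop} (hΘ : Closed act Θ) (s₀ : S) :
    ∃ (A : Str (LK S F)) (x : A.carrier), KAx act A ∧ ¬ Subsingleton A.carrier ∧
      (∀ s t, Θ s t → ∀ y, pr A s y → pr A t y) ∧ ∀ t, pr A t x ↔ Θ s₀ t := by
  have hmono : ∀ f (s t : S), t ≤ s → act f t ≤ act f s := by
    intro f s t h
    have h1 := hact f s t
    rw [sup_eq_left.2 h] at h1
    rw [h1]
    exact le_sup_right
  have htr : ∀ s t, Θ s t → ∀ y, Qp act Θ s₀ s y → Qp act Θ s₀ t y := by
    intro s t h y hy
    unfold Qp at hy ⊢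
    rcases ev_rel (R := Θ) hΘ.op y s t h with ⟨s', t', h1, h2, h3⟩ | ⟨h1, h2⟩ | ⟨h1, h2⟩
    · rw [h1] at hy
      rw [h2]
      exact hΘ.trans _ _ _ hy h3
    · rw [h2]
      trivial
    · rw [h1] at hy
      exact hy.elim
  refine ⟨strM (Qp act Θ s₀), ([] : List (Sym F)), ?_, ?_, ?_, ?_⟩
  · refine ⟨?_, ?_, ?_, ?_, ?_, ?_, ?_, ?_⟩
    · intro s t h x hx
      exact htr s t (hΘ.refl s t h) x hx
    · intro s t x hs ht
      change Qp act Θ s₀ (s ⊔ t) x
      change Qp act Θ s₀ s x at hs
      change Qp act Θ s₀ t x at ht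
      unfold Qp at hs ht ⊢
      rcases ev_sup hact x s t with ⟨s', t', h1, h2, h3⟩ | ⟨h1, h2⟩ | ⟨h1, h2⟩
      · rw [h1] at hs
        rw [h2] at ht
        rw [h3]
        exact hΘ.sup _ _ _ hs ht
      · rw [h2]
        trivial
      · rw [h1] at hs
        exact hs.elim
    · intro f s x
      exact Iff.rfl
    · intro s x
      trivial
    · intro s x h
      exact (h : False).elim
    · intro a x y h
      exact (List.cons.inj h).2
    · intro a b hab x y h
      exact absurd (List.cons.inj h).1 hab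
    · intro w hw (x : List (Sym F)) h
      have h2 : w ++ x = x := (apW_eq' (Qp act Θ s₀) w x).symm.trans h
      exact absurd (List.append_left_eq_self.1 h2) hw
  · intro h
    have h1 : ([] : List (Sym F)) = [Sym.o] := h.elim _ _
    exact absurd h1 (by simp)
  · intro s t h y hy
    exact htr s t h y hy
  · intro t
    exact Iff.rfl

end C5E17
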