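import Pool.Agent.Lib.MP_c5e17c_al.OA.QTerms

/-!
# MP_c5e17c_al, project OA: cancellation and free representation in the structures of `KK`
-/

set_option autoImplicit false

namespace C5E17

variable {S F : Type}

/-- the value of `P_s` at `w(x)` in a nontrivial structure of `KK` -/
theorem pr_apW [SemilatticeSup S] {act : F → S → S} {A : Str (LK S F)} (hA : KAx act A)
    (hn : ¬ Subsingleton A.carrier) (s : S) (w : List (Sym F)) (x : A.carrier) :
    pr A s (apW A w x) ↔ (ev act w s).true A x := by
  induction w generalizing s with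
  | nil => exact Iff.rfl
  | cons a w ih =>
    cases a with
    | op f => exact (hA.op f s (apW A w x)).trans (ih (act f s))
    | o => exact ⟨fun _ => trivial, fun _ => hA.o s (apW A w x)⟩
    | k => exact ⟨fun h => hn (hA.k s _ h), fun h => h.elim⟩

/-- cancellation -/
theorem apW_eq [SemilatticeSup S] {act : F → S → S} {A : Str (LK S F)} (hA : KAx act A)
    (hn : ¬ Subsingleton A.carrier) {w w' : List (Sym F)} {x y : A.carrier}
    (h : apW A w x = apW A w' y) :
    (∃ v, w = w' ++ v ∧ apW A v x = y) ∨ (∃ v, w' = w ++ v ∧ apW A v y = x) := by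
  induction w generalizing w' with
  | nil => exact Or.inr ⟨w', rfl, h.symm⟩
  | cons a w ih =>
    cases w' with
    | nil => exact Or.inl ⟨a :: w, rfl, h⟩
    | cons b w' =>
      have hab : a = b := by
        by_contra hne
        exact hn (hA.disj a b hne _ _ h)
      subst hab
      rcases ih (hA.inj a h) with ⟨v, hv, hx⟩ | ⟨v, hv, hx⟩
      · exact Or.inl ⟨v, by rw [hv, List.cons_append], hx⟩
      · exact Or.inr ⟨v, by rw [hv, List.cons_append], hx⟩

/-- words acting equally at some point are equal -/
theorem apW_word_eq [SemilatticeSup S] {act : F → S → S} {A : Str (LK S F)} (hA : KAx act A)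
    (hn : ¬ Subsingleton A.carrier) {w w' : List (Sym F)} {x : A.carrier}
    (h : apW A w x = apW A w' x) : w = w' := by
  rcases apW_eq hA hn h with ⟨v, hv, hx⟩ | ⟨v, hv, hx⟩
  · have : v = [] := by
      by_contra hne
      exact hn (hA.acyc v hne x hx)
    rw [hv, this, List.append_nil]
  · have : v = [] := by
      by_contra hne
      exact hn (hA.acyc v hne x hx)
    rw [hv, this, List.append_nil]

/-- free representation of finitely many elements: `v i` (`i < n`) is `w i` applied to one of
the elements `m i`, and these elements are independent -/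
theorem exists_rep [SemilatticeSup S] {act : F → S → S} {A : Str (LK S F)} (hA : KAx act A)
    (hn : ¬ Subsingleton A.carrier) (n : ℕ) (v : ℕ → A.carrier) :
    ∃ (w : ℕ → List (Sym F)) (m : ℕ → A.carrier), (∀ i < n, v i = apW A (w i) (m i)) ∧
      ∀ i < n, ∀ j < n, ∀ u u' : List (Sym F), apW A u (m i) = apW A u' (m j) →
        m i = m j ∧ u = u' := by
  classical
  have hac : ∀ (t : List (Sym F)) (x : A.carrier), apW A t x = x → t = [] := by
    intro t x hx
    by_contra hne
    exact hn (hA.acyc t hne x hx)
  let P : PartialOrder A.carrier :=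
    { le := fun x y => ∃ u, apW A u x = y
      le_refl := fun x => ⟨[], rfl⟩
      le_trans := fun x y z hxy hyz => by
        obtain ⟨u, hu⟩ := hxy
        obtain ⟨u', hu'⟩ := hyz
        exact ⟨u' ++ u, by rw [apW_append, hu, hu']⟩
      le_antisymm := fun x y hxy hyx => by
        obtain ⟨u, hu⟩ := hxy
        obtain ⟨u', hu'⟩ := hyx
        have h1 : apW A (u' ++ u) x = x := by rw [apW_append, hu, hu']
        have h2 := hac _ _ h1
        have h3 : u = [] := (List.append_eq_nil_iff.1 h2).2
        rw [h3] at hu
        exact hu }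
  have hX : ∀ i : ℕ, ∃ (w : List (Sym F)) (m : A.carrier), i < n →
      v i = apW A w m ∧ m ∈ Finset.image v (Finset.range n) ∧
        ∀ (x : A.carrier) (t : List (Sym F)), x ∈ Finset.image v (Finset.range n) →
          apW A t x = m → x = m := by
    intro i
    by_cases hi : i < n
    · obtain ⟨m, hm, hmin⟩ := (Finset.image v (Finset.range n)).finite_toSet.exists_le_minimal
        (a := v i) (Finset.mem_coe.2 (Finset.mem_image_of_mem v (Finset.mem_range.2 hi)))
      obtain ⟨w, hw⟩ := hm
      refine ⟨w, m, fun _ => ⟨hw.symm, Finset.mem_coe.1 hmin.prop, ?_⟩⟩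
      intro x t hx ht
      exact hmin.eq_of_le (Finset.mem_coe.2 hx) ⟨t, ht⟩
    · exact ⟨[], v 0, fun h => absurd h hi⟩
  choose w m hwm using hX
  refine ⟨w, m, fun i hi => (hwm i hi).1, ?_⟩
  intro i hi j hj u u' h
  rcases apW_eq hA hn h with ⟨t, ht, hx⟩ | ⟨t, ht, hx⟩
  · have hmm : m i = m j := (hwm j hj).2.2 (m i) t (hwm i hi).2.1 hx
    refine ⟨hmm, ?_⟩
    rw [← hmm] at hx
    rw [ht, hac t _ hx, List.append_nil]
  · have hmm : m j = m i := (hwm i hi).2.2 (m j) t (hwm j hj).2.1 hx
    refine ⟨hmm.symm, ?_⟩
    rw [← hmm] at hx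
    rw [ht, hac t _ hx, List.append_nil]

end C5E17
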