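import Pool.Agent.Lib.MP_c5e17c_al.OA.QDefs

/-!
# MP_c5e17c_al, project OA: terms and atoms of the signature `LK S F`
-/

set_option autoImplicit false

namespace C5E17

variable {S F : Type}

theorem apW_append (A : Str (LK S F)) (w w' : List (Sym F)) (x : A.carrier) :
    apW A (w ++ w') x = apW A w (apW A w' x) := by
  induction w with
  | nil => rfl
  | cons a w ih =>
    show ap A a (apW A (w ++ w') x) = ap A a (apW A w (apW A w' x))
    rw [ih]

namespace QTerms

theorem realize_tmA (A : Str (LK S F)) (v : ℕ → A.carrier) (a : Sym F) (t : (LK S F).Term ℕ) :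
    (tmA a t).realize v = ap A a (t.realize v) := rfl

theorem realize_tmW (A : Str (LK S F)) (v : ℕ → A.carrier) (w : List (Sym F))
    (t : (LK S F).Term ℕ) : (tmW w t).realize v = apW A w (t.realize v) := by
  induction w with
  | nil => rfl
  | cons a w ih =>
    show ap A a ((tmW w t).realize v) = ap A a (apW A w (t.realize v))
    rw [ih]

/-- the assignment with four given values -/
def vv {α : Type} (x y z u : α) : ℕ → α
  | 0 => x
  | 1 => y
  | 2 => z
  | _ => u

theorem one {L : FirstOrder.Language.{0, 0}} {A : Str L} {v : ℕ → A.carrier} {a c : Atom L}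
    (h : QId.Holds ⟨[a], c⟩ A) (ha : a.Holds A v) : c.Holds A v := by
  refine h v fun b hb => ?_
  rw [List.mem_singleton] at hb
  subst hb
  exact ha

theorem ones {L : FirstOrder.Language.{0, 0}} {A : Str L} {a c : Atom L}
    (h : ∀ v : ℕ → A.carrier, a.Holds A v → c.Holds A v) : QId.Holds ⟨[a], c⟩ A :=
  fun v hv => h v (hv a (List.mem_singleton.2 rfl))

/-- the form of terms -/
theorem term_form (t : (LK S F).Term ℕ) : ∃ (w : List (Sym F)) (i : ℕ),
    ∀ (A : Str (LK S F)) (v : ℕ → A.carrier), t.realize v = apW A w (v i) := by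
  induction t with
  | var i => exact ⟨[], i, fun A v => rfl⟩
  | @func n f ts ih =>
    cases f with
    | mk a =>
      obtain ⟨w, i, h⟩ := ih 0
      refine ⟨a :: w, i, fun A v => ?_⟩
      show FirstOrder.Language.Structure.funMap (fsym S a) (fun j => (ts j).realize v) =
        FirstOrder.Language.Structure.funMap (fsym S a) (fun _ => apW A w (v i))
      congr 1
      funext j
      have hj : j = 0 := Subsingleton.elim _ _
      subst hj
      exact h A v

end QTerms

open QTerms

/-- membership in `KK`, semantically -/
theorem mem_KK_iff [SemilatticeSup S] (act : F → S → S) (A : Str (LK S F)) :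
    A ∈ KK act ↔ KAx act A := by
  constructor
  · intro h
    refine ⟨?_, ?_, ?_, ?_, ?_, ?_, ?_, ?_⟩
    · intro s t hst x hx
      exact one (v := fun _ => x) (h _ (AxK.mono s t hst)) hx
    · intro s t x h1 h2
      refine h _ (AxK.sup s t) (fun _ => x) fun b hb => ?_
      rw [List.mem_cons, List.mem_singleton] at hb
      rcases hb with rfl | rfl
      · exact h1
      · exact h2
    · intro f s x
      exact ⟨fun h1 => one (v := fun _ => x) (h _ (AxK.op1 f s)) h1,
        fun h1 => one (v := fun _ => x) (h _ (AxK.op2 f s)) h1⟩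
    · intro s x
      exact h _ (AxK.o s) (fun _ => x) fun b hb => absurd hb List.not_mem_nil
    · intro s x hx
      exact ⟨fun a b => one (v := vv x a b b) (h _ (AxK.k s)) hx⟩
    · intro a x y hxy
      exact one (v := vv x y y y) (h _ (AxK.inj a)) hxy
    · intro a b hab x y hxy
      exact ⟨fun c d => one (v := vv x y c d) (h _ (AxK.disj a b hab)) hxy⟩
    · intro w hw x hx
      refine ⟨fun a b => one (v := vv x a b b) (h _ (AxK.acyc w hw)) ?_⟩
      show (tmW w (vr 0)).realize (vv x a b b) = _
      rw [realize_tmW]
      exact hx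
  · intro h φ hφ
    cases hφ with
    | mono s t hst => exact ones fun v hv => h.mono s t hst _ hv
    | sup s t =>
      intro v hv
      exact h.sup s t _ (hv _ (List.mem_cons_self)) (hv _ (List.mem_cons_of_mem _
        (List.mem_singleton.2 rfl)))
    | op1 f s => exact ones fun v hv => (h.op f s _).1 hv
    | op2 f s => exact ones fun v hv => (h.op f s _).2 hv
    | o s => exact fun v _ => h.o s _
    | k s => exact ones fun v hv => (h.k s _ hv).elim _ _
    | inj a => exact ones fun v hv => h.inj a hv
    | disj a b hab => exact ones fun v hv => (h.disj a b hab _ _ hv).elim _ _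
    | acyc w hw =>
      refine ones fun v hv => (h.acyc w hw (v 0) ?_).elim _ _
      have h1 : (tmW w (vr 0)).realize v = v 0 := hv
      rw [realize_tmW] at h1
      exact h1

/-- every atomic formula of the signature `LK S F` is `w(x_i) = w'(x_j)` or `P_s(w(x_i))` -/
theorem atom_cases (a : Atom (LK S F)) :
    (∃ (w : List (Sym F)) (i : ℕ) (w' : List (Sym F)) (j : ℕ),
      ∀ (A : Str (LK S F)) (v : ℕ → A.carrier), a.Holds A v ↔ apW A w (v i) = apW A w' (v j)) ∨
    (∃ (s : S) (w : List (Sym F)) (i : ℕ),
      ∀ (A : Str (LK S F)) (v : ℕ → A.carrier), a.Holds A v ↔ pr A s (apW A w (v i))) := by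
  cases a with
  | eq s t =>
    left
    obtain ⟨w, i, h⟩ := term_form s
    obtain ⟨w', j, h'⟩ := term_form t
    refine ⟨w, i, w', j, fun A v => ?_⟩
    show s.realize v = t.realize v ↔ _
    rw [h, h']
  | @rel n R ts =>
    right
    cases R with
    | P s =>
      obtain ⟨w, i, h⟩ := term_form (ts 0)
      refine ⟨s, w, i, fun A v => ?_⟩
      have e : (fun j => (ts j).realize v) = fun _ : Fin 1 => apW A w (v i) := by
        funext j
        have hj : j = 0 := Subsingleton.elim _ _
        subst hj
        exact h A v
      show FirstOrder.Language.Structure.RelMap (psym F s) (fun j => (ts j).realize v) ↔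
        FirstOrder.Language.Structure.RelMap (psym F s) (fun _ => apW A w (v i))
      rw [e]

/-- a one-element structure of `KK` satisfies every atomic formula -/
theorem atom_holds_of_subsingleton [SemilatticeSup S] {act : F → S → S} {A : Str (LK S F)}
    (hA : KAx act A) (hn : Subsingleton A.carrier) (a : Atom (LK S F)) (v : ℕ → A.carrier) :
    a.Holds A v := by
  rcases atom_cases a with ⟨w, i, w', j, h⟩ | ⟨s, w, i, h⟩
  · exact (h A v).2 (hn.elim _ _)
  · refine (h A v).2 ?_
    rw [hn.elim (apW A w (v i)) (ap A .o (v i))]
    exact hA.o s _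

end C5E17
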