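import Pool.Agent.Lib.MP_c5e17c_al.OA.Closure
import Pool.Agent.Lib.MP_c5e17c_al.OA.Higman

/-!
# MP_c5e17c_al, project OA: the tree of the words `u` with `t ∉ cl_u(I)` has a certificate
-/

set_option autoImplicit false

namespace C5E17

/-- for every word `u` there is a least `c` with `t ∈ cl_c (cl_u I)` -/
private theorem WTree.exists_g {N : Type} [Lattice N] [BoundedOrder N] [Finite N]
    {I : Set (Set (List N))} (hI : IsIdl I) {t : Set (List N)} (ht : Tame t) (u : List N) :
    ∃ m : N, ∀ c : N, t ∈ clw (c :: u) I ↔ m ≤ c := by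
  classical
  have := Fintype.ofFinite N
  have hJ := hI.clw u
  set X : Finset N := Finset.univ.filter (fun c => t ∈ cl c (clw u I)) with hX
  refine ⟨X.inf id, fun c => ⟨fun h => Finset.inf_le (f := id) ?_, fun h => ?_⟩⟩
  · rw [hX, Finset.mem_filter]
    exact ⟨Finset.mem_univ _, h⟩
  · have key : ∀ Y : Finset N, (∀ y ∈ Y, t ∈ cl y (clw u I)) → t ∈ cl (Y.inf id) (clw u I) := by
      intro Y
      induction Y using Finset.induction_on with
      | empty => intro _; simpa using mem_cl_top hJ ht
      | insert a Y _ ih =>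
        intro hY
        rw [Finset.inf_insert]
        exact cl_inf hJ (hY a (Finset.mem_insert_self _ _))
          (ih fun y hy => hY y (Finset.mem_insert_of_mem hy))
    have h1 : t ∈ cl (X.inf id) (clw u I) :=
      key X fun y hy => by
        rw [hX, Finset.mem_filter] at hy
        exact hy.2
    exact cl_mono (Set.Subset.refl _) h h1

/-- letters which do not change the left quotient can be cancelled -/
private theorem WTree.cancel {N : Type} {W : Set (List N)} {u : List N} :
    ∀ v : List N, (∀ c ∈ v, {z : List N | z ++ c :: u ∈ W} = {z : List N | z ++ u ∈ W}) →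
      (v ++ u ∈ W ↔ u ∈ W) := by
  intro v
  induction v using List.reverseRecOn with
  | nil => intro _; simp
  | append_singleton v c ih =>
    intro h
    have h1 := ih fun d hd => h d (by simp [hd])
    have h2 : v ∈ {z : List N | z ++ c :: u ∈ W} ↔ v ∈ {z : List N | z ++ u ∈ W} := by
      rw [h c (by simp)]
    simp only [Set.mem_setOf_eq] at h2
    rw [List.append_assoc, List.singleton_append, h2, h1]

theorem exists_wtree {N : Type} [Lattice N] [BoundedOrder N] [Finite N]
    (sd : ∀ x y z : N, x ⊓ y = x ⊓ z → x ⊓ (y ⊔ z) = x ⊓ y)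
    {I : Set (Set (List N))} (hI : IsIdl I) {t : Set (List N)} (ht : Tame t) :
    ∃ (g : List N → N) (rk : List N → ℕ) (k : List N → N),
      Cert {u : List N | t ∉ clw u I} g rk k ∧ ∀ u c, t ∈ clw (c :: u) I ↔ g u ≤ c := by
  classical
  have := Fintype.ofFinite N
  choose g hg using WTree.exists_g hI ht
  set W : Set (List N) := {u : List N | t ∉ clw u I} with hW
  have hWm : ∀ u : List N, u ∈ W ↔ t ∉ clw u I := fun u => Iff.rfl
  have hsub : ∀ u v : List N, u.Sublist v → v ∈ W → u ∈ W := by
    intro u v huv hv hu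
    exact hv (clw_sublist hI huv hu)
  have hfin := range_quotient_finite W hsub
  set Vq : List N → Set (List N) := fun u => {v : List N | v ++ u ∈ W} with hVq
  have hVm : ∀ u v : List N, v ∈ Vq u ↔ v ++ u ∈ W := fun u v => Iff.rfl
  have hmono : ∀ (c : N) (u : List N), Vq (c :: u) ⊆ Vq u := by
    intro c u v hv
    exact hsub _ _ (List.Sublist.append_left (List.sublist_cons_self c u) v) hv
  have hmono2 : ∀ (c d : N) (u : List N), Vq (d :: c :: u) ⊆ Vq (d :: u) := by
    intro c d u v hv
    exact hsub _ _ (List.Sublist.append_left ((List.sublist_cons_self c u).cons_cons d) v) hv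
  set rk : List N → ℕ := fun u => {V ∈ Set.range Vq | V ⊆ Vq u}.ncard with hrk
  set X : List N → Finset N := fun u => Finset.univ.filter (fun c => Vq (c :: u) = Vq u) with hX
  set k : List N → N := fun u => (X u).sup id with hk
  have hXm : ∀ (u : List N) (c : N), c ∈ X u ↔ Vq (c :: u) = Vq u := by
    intro u c
    simp only [hX, Finset.mem_filter, Finset.mem_univ, true_and]
  refine ⟨g, rk, k, ⟨?_, ?_, ?_, ?_⟩, fun u c => hg u c⟩
  · -- cons
    intro c w
    constructor
    · intro h
      exact ⟨hsub _ _ (List.sublist_cons_self c w) h, fun hgc => h ((hg w c).2 hgc)⟩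
    · rintro ⟨_, h⟩ hc
      exact h ((hg w c).1 hc)
  · -- nle
    intro w hw hle
    have h1 : t ∈ cl (k w) (clw w I) := (hg w (k w)).2 hle
    obtain ⟨v, hv, hv2⟩ := cl_sup_words sd (X w) (hI.clw w) h1
    rw [← clw_append] at hv2
    have h2 := (WTree.cancel (W := W) (u := w) v fun c hc => (hXm w c).1 (hv c hc)).2 hw
    exact h2 hv2
  · -- lst_le
    intro w _
    cases w with
    | nil => exact bot_le
    | cons c w =>
      have h1 : c ∈ X (c :: w) := by
        rw [hXm]
        ext v
        rw [hVm, hVm, hWm, hWm, clw_append, clw_append]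
        have h2 : clw (c :: c :: w) I = clw (c :: w) I := cl_cl (hI.clw w) c
        rw [h2]
      exact Finset.le_sup (f := id) h1
  · -- desc
    intro c w _
    have hfin' : ∀ u : List N, {V ∈ Set.range Vq | V ⊆ Vq u}.Finite := fun u =>
      hfin.subset fun V hV => hV.1
    have hss : {V ∈ Set.range Vq | V ⊆ Vq (c :: w)} ⊆ {V ∈ Set.range Vq | V ⊆ Vq w} :=
      fun V hV => ⟨hV.1, hV.2.trans (hmono c w)⟩
    by_cases hEq : Vq (c :: w) = Vq w
    · right
      refine ⟨?_, ?_⟩
      · simp only [hrk, hEq]
      · refine Finset.sup_le fun d hd => ?_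
        rw [hXm] at hd
        refine Finset.le_sup (f := id) ?_
        rw [hXm]
        apply Set.Subset.antisymm (hmono d w)
        rw [← hEq, ← hd]
        exact hmono2 c d w
    · left
      refine Set.ncard_lt_ncard ?_ (hfin' w)
      refine ⟨hss, fun h => hEq ?_⟩
      have h1 : Vq w ∈ {V ∈ Set.range Vq | V ⊆ Vq w} := ⟨⟨w, rfl⟩, Set.Subset.refl _⟩
      exact Set.Subset.antisymm (hmono c w) (h h1).2

end C5E17
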